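import Pool.Agent.U196.SH.Vis
import Pool.Agent.U196.CL.Var
import Pool.Agent.U196.UV.Gap
import Pool.Agent.U85.Ml.Un
import Pool.Agent.U85.Ml.Mw

/-!
# Project SH (helper196): points of a given sign with normal local statistics of the zeros
-/

set_option autoImplicit false

namespace Pool.Agent.U196.SH

open Filter Topology MeasureTheory Complex
open Pool.Agent.Q97.UM

noncomputable section

lemma int_union_le {f : ℝ → ℝ} {A B I : Set ℝ} (hf0 : ∀ t, 0 ≤ f t) (hfi : IntegrableOn f I) (hA : MeasurableSet A)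
    (hB : MeasurableSet B) (hAI : A ⊆ I) (hBI : B ⊆ I) : ∫ t in A ∪ B, f t ≤ (∫ t in A, f t) + ∫ t in B, f t := by
  have h1 : A ∪ B = A ∪ (B \ A) := by simp
  rw [h1, setIntegral_union Set.disjoint_sdiff_right (hB.diff hA) (hfi.mono_set hAI)
    (hfi.mono_set (Set.sdiff_subset.trans hBI))]
  have h2 : ∫ t in B \ A, f t ≤ ∫ t in B, f t :=
    setIntegral_mono_set (hfi.mono_set hBI) (Eventually.of_forall hf0) (Eventually.of_forall Set.sdiff_subset)
  linarith

/-- the measurable hull of a subset of an interval -/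
def hull (T : ℝ) (A : Set ℝ) : Set ℝ := toMeasurable volume A ∩ Set.Icc T (2 * T)

lemma hull_meas (T : ℝ) (A : Set ℝ) : MeasurableSet (hull T A) := (measurableSet_toMeasurable _ _).inter measurableSet_Icc

lemma hull_sub {T : ℝ} {A : Set ℝ} (hA : A ⊆ Set.Icc T (2 * T)) : A ⊆ hull T A := fun _ h => ⟨subset_toMeasurable _ _ h, hA h⟩

lemma hull_int {T : ℝ} {A : Set ℝ} (hA : A ⊆ Set.Icc T (2 * T)) {f : ℝ → ℝ} (hf0 : ∀ t, 0 ≤ f t) (hf : Continuous f) :
    ∫ t in hull T A, f t ≤ ∫ t in A, f t := by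
  have hfin : volume A ≠ ⊤ := ((measure_mono hA).trans_lt (by rw [Real.volume_Icc]; exact ENNReal.ofReal_lt_top)).ne
  have h1 : volume.restrict (toMeasurable volume A) = volume.restrict A := Measure.restrict_toMeasurable hfin
  have hint : IntegrableOn f (toMeasurable volume A) := by
    unfold IntegrableOn
    rw [h1]
    exact (hf.integrableOn_Icc).mono_set hA
  calc ∫ t in hull T A, f t ≤ ∫ t in toMeasurable volume A, f t :=
        setIntegral_mono_set hint (Eventually.of_forall hf0) (Eventually.of_forall Set.inter_subset_left)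
    _ = ∫ t in A, f t := by rw [h1]

/-- the number of nontrivial zeros of `ζ` with ordinate in `[t - r, t + r]`, with multiplicity -/
def cnt (t r : ℝ) : ℕ :=
  ∑ᶠ s ∈ {s : ℂ | riemannZeta s = 0 ∧ 0 < s.re ∧ s.re < 1 ∧ |s.im - t| ≤ r}, analyticOrderNatAt riemannZeta s

lemma cnt_eq {T t r : ℝ} (hT : 1 ≤ T) (h1 : T + 1 < t - r) (h2 : t + r ≤ 2 * T - 1) : (cnt t r : ℝ) = Nw T r t := by
  classical
  have h : {s : ℂ | riemannZeta s = 0 ∧ 0 < s.re ∧ s.re < 1 ∧ |s.im - t| ≤ r} =
      (((ZT T).filter (fun s => |s.im - t| ≤ r) : Finset ℂ) : Set ℂ) := by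
    ext s
    rw [Finset.mem_coe, Finset.mem_filter, Pool.Agent.U196.UV.mem_ZT hT]
    constructor
    · rintro ⟨a1, a2, a3, a4⟩
      have a5 := abs_le.1 a4
      exact ⟨⟨a1, a2, a3, by linarith [a5.1], by linarith [a5.2]⟩, a4⟩
    · rintro ⟨⟨a1, a2, a3, -, -⟩, a4⟩
      exact ⟨a1, a2, a3, a4⟩
  unfold cnt Nw
  rw [h, finsum_mem_coe_finset]
  push_cast
  exact Finset.sum_congr (by congr) fun _ _ => rfl

/-- the points whose window has an unusual number of zeros -/
def bad3 (K H T : ℝ) : Set ℝ := {t : ℝ | t ∈ Set.Icc T (2 * T) ∧ K * Real.sqrt (Real.log H) < |(cnt t (H / Real.log T) : ℝ) - H / Real.pi|}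

theorem count_bad {ε : ℝ} (hε : 0 < ε) : ∃ K : ℝ, 0 < K ∧ ∀ H : ℝ, 3 ≤ H → ∃ θ : ℝ, 0 < θ ∧ ∀ᶠ T : ℝ in atTop, ∀ N : ℕ,
    (N : ℝ) ≤ T ^ θ → ∀ b : ℕ → ℂ, ∫ t in bad3 K H T, ‖dp N b t‖ ^ 2 ≤ ε * (T * N2 N b) := by
  obtain ⟨C, hC, h⟩ := Pool.Agent.U196.CL.variance
  refine ⟨Real.sqrt (2 * (1 + 2 * C) / ε), by positivity, fun H hH => ?_⟩
  obtain ⟨θ, hθ, -, hT⟩ := h H (by linarith)
  set θ' : ℝ := min θ (1 / 4) with hθ'
  refine ⟨θ', by positivity, ?_⟩
  have hlogH : 1 ≤ Real.log H := by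
    rw [Real.le_log_iff_exp_le (by linarith)]
    have := Real.exp_one_lt_d9
    linarith
  have hg : ∀ᶠ T : ℝ in atTop, 4 * Real.log T * T ^ (1 / 4 : ℝ) ≤ ε / 2 * T := by
    have h1 := (isLittleO_log_rpow_atTop (show (0:ℝ) < 1 / 4 by norm_num)).bound (show (0:ℝ) < ε / 8 by positivity)
    filter_upwards [h1, eventually_ge_atTop 1] with T h1 hT
    have hT0 : 0 < T := by linarith
    rw [Real.norm_of_nonneg (Real.log_nonneg hT), Real.norm_of_nonneg (by positivity)] at h1
    have e1 : T ^ (1 / 4 : ℝ) * T ^ (1 / 4 : ℝ) ≤ T := by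
      rw [← Real.rpow_add hT0]
      calc T ^ ((1 / 4 : ℝ) + 1 / 4) ≤ T ^ (1 : ℝ) := Real.rpow_le_rpow_of_exponent_le hT (by norm_num)
        _ = T := Real.rpow_one T
    have h2 := mul_le_mul_of_nonneg_right h1 (by positivity : 0 ≤ T ^ (1 / 4 : ℝ))
    nlinarith
  filter_upwards [hT, hg, Pool.Agent.Q150.UM.ev_log (H + 2), Pool.Agent.Q150.UM.ev_loglin (1 / 8) (by norm_num),
    eventually_ge_atTop (16 : ℝ)] with T hT hg hL hTl hT16 N hN b
  have hT0 : 0 < T := by linarith
  have hT1 : 1 ≤ T := by linarith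
  have hL0 : 0 < Real.log T := by linarith
  have hpi := Real.pi_pos
  rcases Nat.eq_zero_or_pos N with rfl | hN1
  · have e1 : ∀ t, dp 0 b t = 0 := fun t => by unfold dp; simp
    have e2 : N2 0 b = 0 := by unfold N2; simp
    simp [e1, e2]
  have hNθ : (N : ℝ) ≤ T ^ θ := hN.trans (Real.rpow_le_rpow_of_exponent_le hT1 (min_le_left _ _))
  have hN4 : (N : ℝ) ≤ T ^ (1 / 4 : ℝ) := hN.trans (Real.rpow_le_rpow_of_exponent_le hT1 (min_le_right _ _))
  have hv := hT N hN1 hNθ b
  have hn : 0 ≤ N2 N b := Pool.Agent.Q98.UM.N2_nonneg _ _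
  set f : ℝ → ℝ := fun t => ‖dp N b t‖ ^ 2 with hf
  have hf0 : ∀ t, 0 ≤ f t := fun t => by simp only [hf]; positivity
  have hc : Continuous f := (Pool.Agent.Q84.UM.t_DPM.2.2 N b 0).2.norm.pow 2
  set a := T + 2 * Real.log T with ha
  set c := 2 * T - 2 * Real.log T with hcd
  have hTL : 4 * Real.log T ≤ T := by linarith
  have hac : a ≤ c := by rw [ha, hcd]; linarith
  set K := Real.sqrt (2 * (1 + 2 * C) / ε) with hK
  have hK2 : K ^ 2 = 2 * (1 + 2 * C) / ε := Real.sq_sqrt (by positivity)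
  have hK0 : 0 < K := by positivity
  set D := K ^ 2 * Real.log H with hD
  have hD0 : 0 < D := by positivity
  -- the inner part
  have hNm : Measurable fun t => Nw T (H / Real.log T) t := by
    classical
    have e : (fun t => Nw T (H / Real.log T) t) = fun t => ∑ s ∈ ZT T, if |s.im - t| ≤ H / Real.log T then (mz s : ℝ) else 0 := by
      funext t
      unfold Nw
      rw [Finset.sum_filter]
    rw [e]
    refine Finset.measurable_sum _ fun s _ => ?_
    refine Measurable.ite ?_ measurable_const measurable_const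
    exact measurableSet_le (by fun_prop) measurable_const
  set E : Set ℝ := {t : ℝ | t ∈ Set.Ioc a c ∧ K * Real.sqrt (Real.log H) < |Nw T (H / Real.log T) t - H / Real.pi|} with hE
  have hEm : MeasurableSet E := by
    have hm : MeasurableSet {t : ℝ | K * Real.sqrt (Real.log H) < |Nw T (H / Real.log T) t - H / Real.pi|} :=
      measurableSet_lt measurable_const (by
        have := hNm
        fun_prop)
    exact measurableSet_Ioc.inter hm
  have hEI : E ⊆ Set.Ioc a c := fun t ht => ht.1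
  have hNb : ∃ Bd : ℝ, ∀ t, |Nw T (H / Real.log T) t - H / Real.pi| ≤ Bd := by
    classical
    refine ⟨(∑ s ∈ ZT T, (mz s : ℝ)) + H / Real.pi, fun t => ?_⟩
    have h1 : 0 ≤ Nw T (H / Real.log T) t := by
      unfold Nw
      exact Finset.sum_nonneg fun s _ => Nat.cast_nonneg _
    have h2 : Nw T (H / Real.log T) t ≤ ∑ s ∈ ZT T, (mz s : ℝ) := by
      unfold Nw
      exact Finset.sum_le_sum_of_subset_of_nonneg (Finset.filter_subset _ _) fun s _ _ => Nat.cast_nonneg _
    have h3 : 0 ≤ H / Real.pi := by positivity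
    rw [abs_le]
    constructor <;> linarith
  obtain ⟨Bd, hBd⟩ := hNb
  have hgi : IntegrableOn (fun t => (Nw T (H / Real.log T) t - H / Real.pi) ^ 2 * ‖dp N b t‖ ^ 2) (Set.Ioc a c) := by
    have h1 : IntegrableOn f (Set.Ioc a c) := (hc.integrableOn_Icc).mono_set Set.Ioc_subset_Icc_self
    refine Integrable.bdd_mul (c := Bd ^ 2) h1 ?_ ?_
    · exact ((hNm.sub_const _).pow_const 2).aestronglyMeasurable
    · refine Eventually.of_forall fun t => ?_
      rw [Real.norm_of_nonneg (sq_nonneg _), ← sq_abs]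
      exact pow_le_pow_left₀ (abs_nonneg _) (hBd t) 2
  have hin : D * ∫ t in E, f t ≤ (1 + 2 * C) * Real.log H * (T * N2 N b) := by
    have h1 : ∫ t in E, D * f t ≤ ∫ t in E, (Nw T (H / Real.log T) t - H / Real.pi) ^ 2 * ‖dp N b t‖ ^ 2 := by
      refine setIntegral_mono_on (((hc.integrableOn_Icc).mono_set (hEI.trans Set.Ioc_subset_Icc_self)).const_mul _)
        (hgi.mono_set hEI) hEm fun t ht => ?_
      refine mul_le_mul_of_nonneg_right ?_ (by positivity)
      have h2 : (K * Real.sqrt (Real.log H)) ^ 2 ≤ |Nw T (H / Real.log T) t - H / Real.pi| ^ 2 :=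
        pow_le_pow_left₀ (by positivity) ht.2.le 2
      rw [sq_abs, mul_pow, Real.sq_sqrt (show 0 ≤ Real.log H by linarith)] at h2
      exact h2
    rw [integral_const_mul] at h1
    have h2 : ∫ t in E, (Nw T (H / Real.log T) t - H / Real.pi) ^ 2 * ‖dp N b t‖ ^ 2 ≤
        ∫ t in a..c, (Nw T (H / Real.log T) t - H / Real.pi) ^ 2 * ‖dp N b t‖ ^ 2 := by
      rw [intervalIntegral.integral_of_le hac]
      exact setIntegral_mono_set hgi (Eventually.of_forall fun t => by simp only [Pi.zero_apply]; positivity) (Eventually.of_forall hEI)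
    have h3 := (abs_le.1 hv).2
    have hs : Real.sqrt (Real.log H) ≤ Real.log H := Real.sqrt_le_iff.2 ⟨by linarith, by nlinarith⟩
    have hTn : 0 ≤ T * N2 N b := by positivity
    have h4 : Real.log H / Real.pi ^ 2 * (T * N2 N b) ≤ Real.log H * (T * N2 N b) := by
      refine mul_le_mul_of_nonneg_right ?_ hTn
      have h6 : 1 ≤ Real.pi ^ 2 := by
        have := Real.pi_gt_three
        nlinarith
      exact div_le_self (by linarith) h6
    have h5 : C * (1 + Real.sqrt (Real.log H)) * (T * N2 N b) ≤ 2 * C * Real.log H * (T * N2 N b) := by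
      refine mul_le_mul_of_nonneg_right ?_ hTn
      have h6 : 1 + Real.sqrt (Real.log H) ≤ 2 * Real.log H := by linarith
      have h7 := mul_le_mul_of_nonneg_left h6 hC.le
      linarith
    have h6 : (1 + 2 * C) * Real.log H * (T * N2 N b) = Real.log H * (T * N2 N b) + 2 * C * Real.log H * (T * N2 N b) := by ring
    rw [h6]
    linarith
  have hin2 : ∫ t in E, f t ≤ ε / 2 * (T * N2 N b) := by
    have h1 : D = 2 * (1 + 2 * C) / ε * Real.log H := by rw [hD, hK2]
    have h2 : D * ∫ t in E, f t ≤ D * (ε / 2 * (T * N2 N b)) := by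
      refine hin.trans (le_of_eq ?_)
      rw [h1]; field_simp
    exact le_of_mul_le_mul_left h2 hD0
  -- the edges
  have hsub : bad3 K H T ⊆ E ∪ (Set.Icc T a ∪ Set.Icc c (2 * T)) := by
    intro t ht
    rcases le_or_gt t a with h1 | h1
    · right; left; exact ⟨ht.1.1, h1⟩
    · rcases le_or_gt t c with h2 | h2
      · left
        refine ⟨⟨h1, h2⟩, ?_⟩
        have hHL : H / Real.log T < Real.log T := by
          rw [div_lt_iff₀ hL0]
          nlinarith
        rw [← cnt_eq hT1 (by linarith) (by linarith)]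
        exact ht.2
      · right; right; exact ⟨h2.le, ht.1.2⟩
  have hedge : ∀ u v : ℝ, u ≤ v → v - u ≤ 2 * Real.log T → ∫ t in Set.Icc u v, f t ≤ ε / 4 * (T * N2 N b) := by
    intro u v huv hlen
    have h1 : ∫ t in Set.Icc u v, f t ≤ ∫ t in Set.Icc u v, (N : ℝ) * N2 N b :=
      setIntegral_mono_on hc.integrableOn_Icc (continuous_const.integrableOn_Icc) measurableSet_Icc
        fun t _ => (Pool.Agent.Q84.UM.t_DPM.2.2 N b t).1
    rw [setIntegral_const, smul_eq_mul, Real.volume_real_Icc_of_le huv] at h1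
    have h2 : (v - u) * ((N : ℝ) * N2 N b) ≤ 2 * Real.log T * (T ^ (1 / 4 : ℝ) * N2 N b) := by
      refine mul_le_mul hlen (mul_le_mul_of_nonneg_right hN4 hn) (by positivity) (by linarith)
    have h3 := mul_le_mul_of_nonneg_right hg hn
    nlinarith
  have hEI2 : E ⊆ Set.Icc T (2 * T) := fun t ht => ⟨by linarith [ht.1.1], by linarith [ht.1.2]⟩
  have hi : IntegrableOn f (Set.Icc T (2 * T)) := hc.integrableOn_Icc
  have hsI1 : Set.Icc T a ⊆ Set.Icc T (2 * T) := Set.Icc_subset_Icc le_rfl (by linarith)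
  have hsI2 : Set.Icc c (2 * T) ⊆ Set.Icc T (2 * T) := Set.Icc_subset_Icc (by linarith) le_rfl
  calc ∫ t in bad3 K H T, f t ≤ ∫ t in E ∪ (Set.Icc T a ∪ Set.Icc c (2 * T)), f t :=
        setIntegral_mono_set (hi.mono_set (Set.union_subset hEI2 (Set.union_subset hsI1 hsI2))) (Eventually.of_forall hf0)
          (Eventually.of_forall hsub)
    _ ≤ (∫ t in E, f t) + ∫ t in Set.Icc T a ∪ Set.Icc c (2 * T), f t :=
        int_union_le hf0 hi hEm (measurableSet_Icc.union measurableSet_Icc) hEI2 (Set.union_subset hsI1 hsI2)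
    _ ≤ (∫ t in E, f t) + ((∫ t in Set.Icc T a, f t) + ∫ t in Set.Icc c (2 * T), f t) := by
        have := int_union_le hf0 hi measurableSet_Icc measurableSet_Icc hsI1 hsI2
        linarith
    _ ≤ ε / 2 * (T * N2 N b) + (ε / 4 * (T * N2 N b) + ε / 4 * (T * N2 N b)) := by
        have e1 := hedge T a (by linarith) (by linarith)
        have e2 := hedge c (2 * T) (by linarith) (by linarith)
        linarith
    _ = ε * (T * N2 N b) := by ring

end

end Pool.Agent.U196.SH
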