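import Pool.Agent.U196.SH.Mass
import Pool.Agent.U196.UM.Shift

/-!
# Project SH (helper196): lower bounds for products of shifted values over sets which carry a positive share of the mass of every
Dirichlet polynomial. The proof follows `Pool.Agent.Q98.UM.t_LBM` (helper97, helper98).
-/

set_option autoImplicit false

namespace Pool.Agent.U196.SH

open Filter Topology MeasureTheory Complex
open Pool.Agent.Q97.UM
open Pool.Agent.Q98.UM

theorem lint_lower_set {S : Set ℝ} {φ G : ℝ → ℝ} (hφ : IntegrableOn φ S) (hle : ∀ᵐ t : ℝ, φ t ≤ G t) :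
    ENNReal.ofReal (∫ t in S, φ t) ≤ ∫⁻ t in S, ENNReal.ofReal (G t) := by
  have hi : Integrable φ (volume.restrict S) := hφ
  have h1 : ∫ t in S, φ t ≤ ∫ t in S, max (φ t) 0 :=
    integral_mono hi hi.pos_part fun t => le_max_left _ _
  have h2 := ofReal_integral_eq_lintegral_ofReal hi.pos_part
    (Eventually.of_forall fun t => le_max_right _ _)
  calc ENNReal.ofReal (∫ t in S, φ t)
      ≤ ENNReal.ofReal (∫ t in S, max (φ t) 0) := ENNReal.ofReal_le_ofReal h1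
    _ = ∫⁻ t in S, ENNReal.ofReal (max (φ t) 0) := h2
    _ ≤ _ := by
      refine lintegral_mono_ae (ae_restrict_of_ae (hle.mono fun t ht => ?_))
      rw [ENNReal.ofReal_le_ofReal_iff']
      rcases le_total (φ t) 0 with h | h
      · right
        rw [max_eq_right h]
      · left
        rw [max_eq_left h]
        exact ht

/-- **lower bounds over subsets** -/
theorem lbm_sub {ι : Type*} {θ₁ c₀ : ℝ} (hθ₁ : 0 < θ₁) (hc₀ : 0 < c₀) (S : ι → ℝ → Set ℝ)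
    (hSm : ∀ i T, MeasurableSet (S i T)) (hSs : ∀ i T, S i T ⊆ Set.Icc T (2 * T))
    (hmass : ∀ᶠ T : ℝ in atTop, ∀ i, ∀ N : ℕ, (N : ℝ) ≤ T ^ θ₁ → ∀ b : ℕ → ℂ, c₀ * (T * N2 N b) ≤ ∫ t in S i T, ‖dp N b t‖ ^ 2)
    (A : ℝ) (hA : 1 ≤ A) : ∃ δ θ c : ℝ, 0 < δ ∧ δ ≤ 1 / 40 ∧ 0 < θ ∧ 0 < c ∧ ∀ᶠ T : ℝ in atTop, ∀ (n : ℕ) (k α : Fin n → ℝ),
    ∑ j, |k j| ≤ A → (∀ j, |α j| ≤ T / 2) → ∃ (M : ℕ) (e : ℕ → ℂ), (M : ℝ) ≤ T ^ (1 / 8 : ℝ) ∧ (∀ m, e m ≠ 0 → 1 ≤ m ∧ m ≤ M) ∧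
    c * Real.exp (∑ p ∈ (Finset.Icc 1 ⌊T ^ δ⌋₊).filter Nat.Prime, ‖ap k α p‖ ^ 2 / p) ≤ N2 M e ∧
    ∀ i, ∀ N : ℕ, (N : ℝ) ≤ T ^ θ → ∀ b : ℕ → ℂ, (∀ m, b m ≠ 0 → 1 ≤ m ∧ m ≤ N) →
      ENNReal.ofReal (c * T * N2 (M * N) (cv e b)) ≤
        ∫⁻ t in S i T, ENNReal.ofReal ((∏ j, ‖zt (t + α j)‖ ^ (2 * k j)) * ‖dp N b t‖ ^ 2) := by
  have hT : S_THP := b_THP
  have hE : S_EK := b_EK
  have hD : S_DPM := Pool.Agent.Q84.UM.t_DPM
  have hM : S_MVL := Pool.Agent.Q84.UM.t_MVL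
  obtain ⟨κ, hκ, hE⟩ := hE A hA
  obtain ⟨θ₀', δ₀, hθ₀', hδ₀, hT⟩ := hT 1
  set θ₀ : ℝ := min θ₀' θ₁ with hθ₀d
  have hθ₀ : 0 < θ₀ := by positivity
  have hκ1 : 0 < 1 + 20 * κ := by linarith
  obtain ⟨δ, hδ, hδ1, hδ2, hδ3⟩ : ∃ δ : ℝ, 0 < δ ∧ (1 + 20 * κ) * δ ≤ 1 / 40 ∧ δ ≤ δ₀ ∧
      (1 + 20 * κ) * δ ≤ θ₀ := by
    refine ⟨min (1 / 40 / (1 + 20 * κ)) (min δ₀ (θ₀ / (1 + 20 * κ))), by positivity, ?_, ?_, ?_⟩
    · calc (1 + 20 * κ) * min (1 / 40 / (1 + 20 * κ)) (min δ₀ (θ₀ / (1 + 20 * κ)))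
          ≤ (1 + 20 * κ) * (1 / 40 / (1 + 20 * κ)) := mul_le_mul_of_nonneg_left (min_le_left _ _) hκ1.le
        _ = _ := by field_simp
    · exact (min_le_right _ _).trans (min_le_left _ _)
    · calc (1 + 20 * κ) * min (1 / 40 / (1 + 20 * κ)) (min δ₀ (θ₀ / (1 + 20 * κ)))
          ≤ (1 + 20 * κ) * (θ₀ / (1 + 20 * κ)) :=
            mul_le_mul_of_nonneg_left ((min_le_right _ _).trans (min_le_right _ _)) hκ1.le
        _ = _ := by field_simp
  have hδ40 : δ ≤ 1 / 40 := by nlinarith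
  obtain ⟨C₁, hC₁, hT⟩ := hT δ hδ hδ2
  obtain ⟨C₂, c₂, hC₂, hc₂, hE⟩ := hE δ hδ
  have hS3 := S3_nonneg
  set K₁ : ℝ := 2 * A * C₁ + 8 * A * S3 + 8 * C₂ with hK₁
  have hK₁0 : 0 ≤ K₁ := by positivity
  refine ⟨δ, δ, min c₂ (Real.exp (-(K₁ / c₀)) * c₀), hδ, hδ40, hδ, by positivity, ?_⟩
  filter_upwards [hT, hE, eventually_ge_atTop 16, hmass] with T hT hE hT16 hmass n k α hk hα
  have hT0 : 0 < T := by linarith
  have hT1 : 1 ≤ T := by linarith
  obtain ⟨M, e, J, M₀, q, w, hd⟩ := hE (ap k α) (ap k fun j => 2 * α j) (norm_ap_le k α hk)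
    (norm_ap_le k _ hk)
  have hML : (M : ℝ) ≤ T ^ (20 * κ * δ) := hd.len
  refine ⟨M, e, hML.trans (Real.rpow_le_rpow_of_exponent_le hT1 (by nlinarith)), hd.supp, ?_, ?_⟩
  · refine le_trans ?_ hd.low
    exact mul_le_mul_of_nonneg_right (min_le_left _ _) (Real.exp_pos _).le
  intro ix N hN b hb
  set f : ℕ → ℂ := cv e b with hf
  have hfs : ∀ m, f m ≠ 0 → 1 ≤ m ∧ m ≤ M * N := cv_supp hd.supp hb
  have hFeq : ∀ t, dp M e t * dp N b t = dp (M * N) f t := fun t =>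
    hD.1 M N e b t (supp_zero hd.supp) (supp_zero hb)
  by_cases h0 : M * N = 0
  · have h1 : N2 (M * N) f = 0 := by
      rw [h0]
      unfold N2
      simp
    rw [h1]
    simp
  have hMN1 : 1 ≤ M * N := Nat.one_le_iff_ne_zero.mpr h0
  have hMN : ((M * N : ℕ) : ℝ) ≤ T ^ ((1 + 20 * κ) * δ) := by
    have e1 : (1 + 20 * κ) * δ = 20 * κ * δ + δ := by ring
    rw [e1, Real.rpow_add hT0]
    push_cast
    exact mul_le_mul hML hN (Nat.cast_nonneg _) (by positivity)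
  have hMNq : ((M * N : ℕ) : ℝ) ≤ T ^ (1 / 4 : ℝ) :=
    hMN.trans (Real.rpow_le_rpow_of_exponent_le hT1 (by linarith))
  obtain ⟨m1, m2⟩ := hM T hT16 (M * N) hMNq f
  set X := ⌊T ^ δ⌋₊ with hX
  set F : ℝ → ℂ := dp (M * N) f with hF
  set n2 := N2 (M * N) f with hn2
  have hn20 : 0 ≤ n2 := Pool.Agent.Q98.UM.N2_nonneg _ _
  have hFc : Continuous F := (hD.2.2 (M * N) f 0).2
  -- the shifted values
  have hsh : ∀ j, IntervalIntegrable (fun t => |Real.log ‖zt (t + α j)‖ - EP X (t + α j)| * ‖F t‖ ^ 2)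
      volume T (2 * T) ∧ ∫ t in T..(2 * T), |Real.log ‖zt (t + α j)‖ - EP X (t + α j)| * ‖F t‖ ^ 2 ≤
        C₁ * T * n2 := by
    intro j
    refine shift_bd hD hT0.le (fun b' => ?_) (hα j)
    exact hT (M * N) (hMN.trans (Real.rpow_le_rpow_of_exponent_le hT1 (hδ3.trans (min_le_left _ _)))) b'
  -- the block errors
  have hq6 : ∀ j t, ‖dp M₀ (q j) t‖ ^ 6 * ‖F t‖ ^ 2 =
      ‖dp (M₀ ^ 3 * (M * N)) (cv (q j) (cv (q j) (cv (q j) f))) t‖ ^ 2 := fun j t =>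
    dp_cube hD (hd.qs j) hfs t
  have hlen3 : ((M₀ ^ 3 * (M * N) : ℕ) : ℝ) ≤ T ^ (1 / 4 : ℝ) := by
    have e1 : ((M₀ ^ 3 * (M * N) : ℕ) : ℝ) ≤ (T ^ (2 * δ)) ^ 3 * T ^ ((1 + 20 * κ) * δ) := by
      push_cast at hMN ⊢
      exact mul_le_mul (pow_le_pow_left₀ (Nat.cast_nonneg _) hd.M0 3) hMN (by positivity) (by positivity)
    refine e1.trans ?_
    rw [← Real.rpow_natCast, ← Real.rpow_mul hT0.le, ← Real.rpow_add hT0]
    refine Real.rpow_le_rpow_of_exponent_le hT1 ?_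
    push_cast
    nlinarith
  have hblk : ∀ j, Continuous (fun t => ‖dp M₀ (q j) t‖ ^ 6 * ‖F t‖ ^ 2) ∧
      ∫ t in T..(2 * T), ‖dp M₀ (q j) t‖ ^ 6 * ‖F t‖ ^ 2 ≤
        2 * T * N2 (M₀ ^ 3 * (M * N)) (cv (q j) (cv (q j) (cv (q j) f))) := by
    intro j
    have e1 : (fun t => ‖dp M₀ (q j) t‖ ^ 6 * ‖F t‖ ^ 2) = fun t =>
        ‖dp (M₀ ^ 3 * (M * N)) (cv (q j) (cv (q j) (cv (q j) f))) t‖ ^ 2 := funext (hq6 j)
    rw [e1]
    exact ⟨((hD.2.2 _ _ 0).2.norm.pow 2), (hM T hT16 _ hlen3 _).2⟩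
  have hmean := hd.mean (M * N) f hMN1 hMN (supp_zero hfs)
  -- the error function
  set g : ℝ → ℝ := fun t => (∑ j, 2 * |k j| * |Real.log ‖zt (t + α j)‖ - EP X (t + α j)|) +
    (4 * A * S3 + 2 * C₂) + ∑ j ∈ Finset.range J, 2 * w j * ‖dp M₀ (q j) t‖ ^ 6 with hg
  have hgF : ∀ t, g t * ‖F t‖ ^ 2 =
      (∑ j, 2 * |k j| * (|Real.log ‖zt (t + α j)‖ - EP X (t + α j)| * ‖F t‖ ^ 2)) +
      (4 * A * S3 + 2 * C₂) * ‖F t‖ ^ 2 +
      ∑ j ∈ Finset.range J, 2 * w j * (‖dp M₀ (q j) t‖ ^ 6 * ‖F t‖ ^ 2) := by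
    intro t
    simp only [hg]
    rw [add_mul, add_mul, Finset.sum_mul, Finset.sum_mul]
    congr 1
    · congr 1
      exact Finset.sum_congr rfl fun j _ => by ring
    · exact Finset.sum_congr rfl fun j _ => by ring
  have i1 : IntervalIntegrable (fun t => ∑ j, 2 * |k j| *
      (|Real.log ‖zt (t + α j)‖ - EP X (t + α j)| * ‖F t‖ ^ 2)) volume T (2 * T) := by
    have := IntervalIntegrable.sum Finset.univ (f := fun j t => 2 * |k j| *
      (|Real.log ‖zt (t + α j)‖ - EP X (t + α j)| * ‖F t‖ ^ 2)) (μ := volume) (a := T) (b := 2 * T)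
      fun j _ => (hsh j).1.const_mul _
    have e1 : (fun t => ∑ j, 2 * |k j| *
        (|Real.log ‖zt (t + α j)‖ - EP X (t + α j)| * ‖F t‖ ^ 2)) = ∑ j, fun t => 2 * |k j| *
        (|Real.log ‖zt (t + α j)‖ - EP X (t + α j)| * ‖F t‖ ^ 2) := by
      funext t
      rw [Finset.sum_apply]
    rw [e1]
    exact this
  have i2 : IntervalIntegrable (fun t => ‖F t‖ ^ 2) volume T (2 * T) :=
    (hFc.norm.pow 2).intervalIntegrable _ _
  have i3 : IntervalIntegrable (fun t => ∑ j ∈ Finset.range J, 2 * w j *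
      (‖dp M₀ (q j) t‖ ^ 6 * ‖F t‖ ^ 2)) volume T (2 * T) :=
    (continuous_finsetSum _ fun j _ => continuous_const.mul (hblk j).1).intervalIntegrable _ _
  have i3' : ∀ j ∈ Finset.range J, IntervalIntegrable (fun t => 2 * w j *
      (‖dp M₀ (q j) t‖ ^ 6 * ‖F t‖ ^ 2)) volume T (2 * T) := fun j _ =>
    (continuous_const.mul (hblk j).1).intervalIntegrable _ _
  have igF : IntervalIntegrable (fun t => g t * ‖F t‖ ^ 2) volume T (2 * T) := by
    simp only [hgF]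
    exact (i1.add (i2.const_mul _)).add i3
  have hTn : 0 ≤ T * n2 := mul_nonneg hT0.le hn20
  have hint : ∫ t in T..(2 * T), g t * ‖F t‖ ^ 2 ≤ K₁ * (T * n2) := by
    simp only [hgF]
    rw [intervalIntegral.integral_add (i1.add (i2.const_mul _)) i3,
      intervalIntegral.integral_add i1 (i2.const_mul _), intervalIntegral.integral_const_mul]
    rw [intervalIntegral.integral_finsetSum fun j _ => (hsh j).1.const_mul _,
      intervalIntegral.integral_finsetSum i3']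
    have b1 : ∑ j, ∫ t in T..(2 * T), 2 * |k j| *
        (|Real.log ‖zt (t + α j)‖ - EP X (t + α j)| * ‖F t‖ ^ 2) ≤ 2 * A * (C₁ * T * n2) := by
      calc ∑ j, ∫ t in T..(2 * T), 2 * |k j| *
          (|Real.log ‖zt (t + α j)‖ - EP X (t + α j)| * ‖F t‖ ^ 2)
          ≤ ∑ j, 2 * |k j| * (C₁ * T * n2) := by
            refine Finset.sum_le_sum fun j _ => ?_
            rw [intervalIntegral.integral_const_mul]
            exact mul_le_mul_of_nonneg_left (hsh j).2 (by positivity)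
        _ = 2 * (∑ j, |k j|) * (C₁ * T * n2) := by rw [← Finset.sum_mul, ← Finset.mul_sum]
        _ ≤ 2 * A * (C₁ * T * n2) := by
            refine mul_le_mul_of_nonneg_right (by linarith) (by positivity)
    have b3 : ∑ j ∈ Finset.range J, ∫ t in T..(2 * T), 2 * w j *
        (‖dp M₀ (q j) t‖ ^ 6 * ‖F t‖ ^ 2) ≤ 4 * T * (C₂ * n2) := by
      calc ∑ j ∈ Finset.range J, ∫ t in T..(2 * T), 2 * w j * (‖dp M₀ (q j) t‖ ^ 6 * ‖F t‖ ^ 2)
          ≤ ∑ j ∈ Finset.range J, 4 * T * (w j *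
              N2 (M₀ ^ 3 * (M * N)) (cv (q j) (cv (q j) (cv (q j) f)))) := by
            refine Finset.sum_le_sum fun j _ => ?_
            rw [intervalIntegral.integral_const_mul]
            have := mul_le_mul_of_nonneg_left (hblk j).2 (by have := hd.wn j; linarith : 0 ≤ 2 * w j)
            refine this.trans (le_of_eq ?_)
            ring
        _ = 4 * T * ∑ j ∈ Finset.range J, w j *
              N2 (M₀ ^ 3 * (M * N)) (cv (q j) (cv (q j) (cv (q j) f))) := by rw [Finset.mul_sum]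
        _ ≤ 4 * T * (C₂ * n2) := mul_le_mul_of_nonneg_left hmean (by positivity)
    have b2 : (4 * A * S3 + 2 * C₂) * ∫ t in T..(2 * T), ‖F t‖ ^ 2 ≤
        (4 * A * S3 + 2 * C₂) * (2 * T * n2) := mul_le_mul_of_nonneg_left m2 (by positivity)
    rw [hK₁]
    linarith [(by ring : 2 * A * (C₁ * T * n2) + (4 * A * S3 + 2 * C₂) * (2 * T * n2) +
      4 * T * (C₂ * n2) = (2 * A * C₁ + 8 * A * S3 + 8 * C₂) * (T * n2))]
  -- the pointwise inequality
  set K : ℝ := K₁ / c₀ with hK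
  have hpt : ∀ᵐ t : ℝ, Real.exp (-K) * ((1 + K) * ‖F t‖ ^ 2 - g t * ‖F t‖ ^ 2) ≤
      (∏ j, ‖zt (t + α j)‖ ^ (2 * k j)) * ‖dp N b t‖ ^ 2 := by
    have hae : ∀ᵐ t : ℝ, ∀ j, zt (t + α j) ≠ 0 := ae_all_iff.mpr fun j => ae_zt (α j)
    refine hae.mono fun t ht => ?_
    have hnn : 0 ≤ (∏ j, ‖zt (t + α j)‖ ^ (2 * k j)) * ‖dp N b t‖ ^ 2 := by positivity
    by_cases hF0 : F t = 0
    · rw [hF0]
      simpa using hnn
    have hEB := hFeq t
    have hE0 : dp M e t ≠ 0 := fun h => hF0 (by rw [← hEB, h, zero_mul])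
    have hprod : ∏ j, ‖zt (t + α j)‖ ^ (2 * k j) =
        Real.exp (∑ j, Real.log ‖zt (t + α j)‖ * (2 * k j)) := by
      rw [Real.exp_sum]
      exact Finset.prod_congr rfl fun j _ => Real.rpow_def_of_pos (norm_pos_iff.mpr (ht j)) _
    have hEsq : ‖dp M e t‖ ^ 2 = Real.exp (2 * Real.log ‖dp M e t‖) := by
      rw [two_mul, Real.exp_add, Real.exp_log (norm_pos_iff.mpr hE0), sq]
    set h : ℝ := (∑ j, Real.log ‖zt (t + α j)‖ * (2 * k j)) - 2 * Real.log ‖dp M e t‖ with hh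
    have hrhs : (∏ j, ‖zt (t + α j)‖ ^ (2 * k j)) * ‖dp N b t‖ ^ 2 = Real.exp h * ‖F t‖ ^ 2 := by
      rw [hprod, ← hEB, norm_mul, mul_pow, hh, Real.exp_sub, ← hEsq]
      have h8 : ‖dp M e t‖ ^ 2 ≠ 0 := pow_ne_zero 2 (norm_ne_zero_iff.mpr hE0)
      rw [← mul_assoc, div_mul_cancel₀ _ h8]
    have hgh : -g t ≤ h := by
      have u1 := hd.up t hE0
      have u2 := abs_le.mp (EP_PA k α hk X t)
      have u3 : 2 * ∑ j, k j * EP X (t + α j) -
          (∑ j, 2 * |k j| * |Real.log ‖zt (t + α j)‖ - EP X (t + α j)|) ≤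
          ∑ j, Real.log ‖zt (t + α j)‖ * (2 * k j) := by
        rw [Finset.mul_sum, ← Finset.sum_sub_distrib]
        refine Finset.sum_le_sum fun j _ => ?_
        have v1 : -(|k j| * |Real.log ‖zt (t + α j)‖ - EP X (t + α j)|) ≤
            k j * (Real.log ‖zt (t + α j)‖ - EP X (t + α j)) := by
          rw [← abs_mul]
          exact neg_abs_le _
        linarith
      have u4 : ∑ j ∈ Finset.range J, 2 * w j * ‖dp M₀ (q j) t‖ ^ 6 =
          2 * ∑ j ∈ Finset.range J, w j * ‖dp M₀ (q j) t‖ ^ 6 := by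
        rw [Finset.mul_sum]
        exact Finset.sum_congr rfl fun j _ => by ring
      simp only [hg, hh]
      rw [u4]
      linarith [u2.1]
    have h4 := exp_tangent (K := K) hgh
    rw [hrhs]
    calc Real.exp (-K) * ((1 + K) * ‖F t‖ ^ 2 - g t * ‖F t‖ ^ 2)
        = Real.exp (-K) * (1 + K - g t) * ‖F t‖ ^ 2 := by ring
      _ ≤ Real.exp h * ‖F t‖ ^ 2 := mul_le_mul_of_nonneg_right h4 (by positivity)
  have iφ : IntervalIntegrable (fun t => Real.exp (-K) * ((1 + K) * ‖F t‖ ^ 2 - g t * ‖F t‖ ^ 2))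
      volume T (2 * T) := ((i2.const_mul _).sub igF).const_mul _
  have h0T : T ≤ 2 * T := by linarith
  have toS : ∀ ψ : ℝ → ℝ, IntervalIntegrable ψ volume T (2 * T) → IntegrableOn ψ (S ix T) := fun ψ hψ =>
    ((intervalIntegrable_iff_integrableOn_Icc_of_le h0T).mp hψ).mono_set (hSs ix T)
  refine le_trans (ENNReal.ofReal_le_ofReal ?_) (lint_lower_set (toS _ iφ) hpt)
  rw [integral_const_mul, integral_sub ((toS _ i2).const_mul _) (toS _ igF), integral_const_mul]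
  set I₀ := ∫ t in S ix T, ‖F t‖ ^ 2 with hI₀
  have hI₀' : c₀ * (T * n2) ≤ I₀ :=
    hmass ix (M * N) (hMN.trans (Real.rpow_le_rpow_of_exponent_le hT1 (hδ3.trans (min_le_right _ _)))) f
  have hg0 : ∀ t, 0 ≤ g t * ‖F t‖ ^ 2 := by
    intro t
    refine mul_nonneg ?_ (by positivity)
    simp only [hg]
    have w1 : 0 ≤ ∑ j, 2 * |k j| * |Real.log ‖zt (t + α j)‖ - EP X (t + α j)| :=
      Finset.sum_nonneg fun j _ => by positivity
    have w2 : 0 ≤ ∑ j ∈ Finset.range J, 2 * w j * ‖dp M₀ (q j) t‖ ^ 6 :=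
      Finset.sum_nonneg fun j _ => mul_nonneg (by have := hd.wn j; linarith) (by positivity)
    have w3 : 0 ≤ 4 * A * S3 + 2 * C₂ := by positivity
    linarith
  have hgS : ∫ t in S ix T, g t * ‖F t‖ ^ 2 ≤ K₁ * (T * n2) := by
    refine le_trans ?_ hint
    rw [intervalIntegral.integral_of_le h0T, ← integral_Icc_eq_integral_Ioc]
    refine setIntegral_mono_set ((intervalIntegrable_iff_integrableOn_Icc_of_le h0T).mp igF)
      (Eventually.of_forall hg0) ?_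
    exact Eventually.of_forall (hSs ix T)
  have h5 : K₁ * (T * n2) ≤ K * I₀ := by
    have e1 : K₁ * (T * n2) = K * (c₀ * (T * n2)) := by rw [hK]; field_simp
    rw [e1]
    exact mul_le_mul_of_nonneg_left hI₀' (by positivity)
  have h6 : I₀ ≤ (1 + K) * I₀ - ∫ t in S ix T, g t * ‖F t‖ ^ 2 := by linarith
  calc min c₂ (Real.exp (-(K₁ / c₀)) * c₀) * T * n2 ≤ Real.exp (-K) * c₀ * (T * n2) := by
        have := mul_le_mul_of_nonneg_right (min_le_right c₂ (Real.exp (-(K₁ / c₀)) * c₀)) hTn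
        linarith
    _ = Real.exp (-K) * (c₀ * (T * n2)) := by ring
    _ ≤ Real.exp (-K) * I₀ := mul_le_mul_of_nonneg_left hI₀' (Real.exp_pos _).le
    _ ≤ _ := mul_le_mul_of_nonneg_left h6 (Real.exp_pos _).le

end Pool.Agent.U196.SH
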