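import Pool.Agent.U196.SH.Low
import Pool.Agent.U196.UM.Exact

/-!
# Project SH (helper196): lower bounds over subsets for a given polynomial; the exact order over subsets. The proof follows
`Pool.Agent.Q210.UM8.t_LBK` (helper97, helper98).
-/

set_option autoImplicit false

namespace Pool.Agent.U196.SH

open Filter Topology MeasureTheory Complex
open Pool.Agent.Q97.UM
open Pool.Agent.Q98.UM

/-- **lower bounds over subsets, for a given polynomial** -/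
theorem lbk_sub {ι : Type*} {θ₁ c₀ : ℝ} (hθ₁ : 0 < θ₁) (hc₀ : 0 < c₀) (S : ι → ℝ → Set ℝ)
    (hSs : ∀ i T, S i T ⊆ Set.Icc T (2 * T))
    (hmass : ∀ᶠ T : ℝ in atTop, ∀ i, ∀ N : ℕ, (N : ℝ) ≤ T ^ θ₁ → ∀ b : ℕ → ℂ, c₀ * (T * N2 N b) ≤ ∫ t in S i T, ‖dp N b t‖ ^ 2)
    (A κ : ℝ) (hA : 1 ≤ A) (hκ : 1 ≤ κ) : ∃ δ₀ : ℝ, 0 < δ₀ ∧ ∀ δ : ℝ, 0 < δ → δ ≤ δ₀ → ∀ C c : ℝ, 0 ≤ C → 0 < c → ∃ θ c' : ℝ, 0 < θ ∧ 0 < c' ∧
    ∀ᶠ T : ℝ in atTop, ∀ (n : ℕ) (k α : Fin n → ℝ), ∑ j, |k j| ≤ A → (∀ j, |α j| ≤ T / 2) →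
    ∀ (M : ℕ) (e : ℕ → ℂ) (J M₀ : ℕ) (q : ℕ → ℕ → ℂ) (w : ℕ → ℝ), EKd δ κ C c T (ap k α) (ap k (fun j => 2 * α j)) M e J M₀ q w →
    ∀ i, ∀ N : ℕ, (N : ℝ) ≤ T ^ θ → ∀ b : ℕ → ℂ, (∀ m, b m ≠ 0 → 1 ≤ m ∧ m ≤ N) →
      ENNReal.ofReal (c' * T * N2 (M * N) (cv e b)) ≤
        ∫⁻ t in S i T, ENNReal.ofReal ((∏ j, ‖zt (t + α j)‖ ^ (2 * k j)) * ‖dp N b t‖ ^ 2) := by
  have hT : S_THP := b_THP
  have hD : S_DPM := Pool.Agent.Q84.UM.t_DPM
  have hM : S_MVL := Pool.Agent.Q84.UM.t_MVL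
  obtain ⟨θ₀', δ₀, hθ₀', hδ₀, hT⟩ := hT 1
  set θ₀ : ℝ := min θ₀' θ₁ with hθ₀d
  have hθ₀ : 0 < θ₀ := by positivity
  have hκ1 : 0 < 1 + 20 * κ := by linarith
  refine ⟨min (1 / 40 / (1 + 20 * κ)) (min δ₀ (θ₀ / (1 + 20 * κ))), by positivity, ?_⟩
  intro δ hδ hδle
  have hδ1 : (1 + 20 * κ) * δ ≤ 1 / 40 := by
    calc (1 + 20 * κ) * δ ≤ (1 + 20 * κ) * (1 / 40 / (1 + 20 * κ)) :=
          mul_le_mul_of_nonneg_left (hδle.trans (min_le_left _ _)) hκ1.le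
      _ = _ := by field_simp
  have hδ2 : δ ≤ δ₀ := hδle.trans ((min_le_right _ _).trans (min_le_left _ _))
  have hδ3 : (1 + 20 * κ) * δ ≤ θ₀ := by
    calc (1 + 20 * κ) * δ ≤ (1 + 20 * κ) * (θ₀ / (1 + 20 * κ)) :=
          mul_le_mul_of_nonneg_left (hδle.trans ((min_le_right _ _).trans (min_le_right _ _))) hκ1.le
      _ = _ := by field_simp
  have hδ40 : δ ≤ 1 / 40 := by nlinarith
  obtain ⟨C₁, hC₁, hT⟩ := hT δ hδ hδ2
  intro C₂ c₂ hC₂ hc₂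
  have hS3 := S3_nonneg
  set K₁ : ℝ := 2 * A * C₁ + 8 * A * S3 + 8 * C₂ with hK₁
  have hK₁0 : 0 ≤ K₁ := by positivity
  refine ⟨δ, Real.exp (-(K₁ / c₀)) * c₀, hδ, by positivity, ?_⟩
  filter_upwards [hT, eventually_ge_atTop 16, hmass] with T hT hT16 hmass n k α hk hα M e J M₀ q w hd
  have hT0 : 0 < T := by linarith
  have hT1 : 1 ≤ T := by linarith
  have hML : (M : ℝ) ≤ T ^ (20 * κ * δ) := hd.len
  intro ix N hN b hb
  set f : ℕ → ℂ := cv e b with hf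
  have hfs : ∀ m, f m ≠ 0 → 1 ≤ m ∧ m ≤ M * N := cv_supp hd.supp hb
  have hFeq : ∀ t, dp M e t * dp N b t = dp (M * N) f t := fun t =>
    hD.1 M N e b t (supp_zero hd.supp) (supp_zero hb)
  by_cases h0 : M * N = 0
  · have h1 : N2 (M * N) f = 0 := by
      rw [h0]
      unfold N2
      simp
    rw [h1]
    simp
  have hMN1 : 1 ≤ M * N := Nat.one_le_iff_ne_zero.mpr h0
  have hMN : ((M * N : ℕ) : ℝ) ≤ T ^ ((1 + 20 * κ) * δ) := by
    have e1 : (1 + 20 * κ) * δ = 20 * κ * δ + δ := by ring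
    rw [e1, Real.rpow_add hT0]
    push_cast
    exact mul_le_mul hML hN (Nat.cast_nonneg _) (by positivity)
  have hMNq : ((M * N : ℕ) : ℝ) ≤ T ^ (1 / 4 : ℝ) :=
    hMN.trans (Real.rpow_le_rpow_of_exponent_le hT1 (by linarith))
  obtain ⟨m1, m2⟩ := hM T hT16 (M * N) hMNq f
  set X := ⌊T ^ δ⌋₊ with hX
  set F : ℝ → ℂ := dp (M * N) f with hF
  set n2 := N2 (M * N) f with hn2
  have hn20 : 0 ≤ n2 := Pool.Agent.Q98.UM.N2_nonneg _ _
  have hFc : Continuous F := (hD.2.2 (M * N) f 0).2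
  -- the shifted values
  have hsh : ∀ j, IntervalIntegrable (fun t => |Real.log ‖zt (t + α j)‖ - EP X (t + α j)| * ‖F t‖ ^ 2)
      volume T (2 * T) ∧ ∫ t in T..(2 * T), |Real.log ‖zt (t + α j)‖ - EP X (t + α j)| * ‖F t‖ ^ 2 ≤
        C₁ * T * n2 := by
    intro j
    refine shift_bd hD hT0.le (fun b' => ?_) (hα j)
    exact hT (M * N) (hMN.trans (Real.rpow_le_rpow_of_exponent_le hT1 (hδ3.trans (min_le_left _ _)))) b'
  -- the block errors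
  have hq6 : ∀ j t, ‖dp M₀ (q j) t‖ ^ 6 * ‖F t‖ ^ 2 =
      ‖dp (M₀ ^ 3 * (M * N)) (cv (q j) (cv (q j) (cv (q j) f))) t‖ ^ 2 := fun j t =>
    dp_cube hD (hd.qs j) hfs t
  have hlen3 : ((M₀ ^ 3 * (M * N) : ℕ) : ℝ) ≤ T ^ (1 / 4 : ℝ) := by
    have e1 : ((M₀ ^ 3 * (M * N) : ℕ) : ℝ) ≤ (T ^ (2 * δ)) ^ 3 * T ^ ((1 + 20 * κ) * δ) := by
      push_cast at hMN ⊢
      exact mul_le_mul (pow_le_pow_left₀ (Nat.cast_nonneg _) hd.M0 3) hMN (by positivity) (by positivity)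
    refine e1.trans ?_
    rw [← Real.rpow_natCast, ← Real.rpow_mul hT0.le, ← Real.rpow_add hT0]
    refine Real.rpow_le_rpow_of_exponent_le hT1 ?_
    push_cast
    nlinarith
  have hblk : ∀ j, Continuous (fun t => ‖dp M₀ (q j) t‖ ^ 6 * ‖F t‖ ^ 2) ∧
      ∫ t in T..(2 * T), ‖dp M₀ (q j) t‖ ^ 6 * ‖F t‖ ^ 2 ≤
        2 * T * N2 (M₀ ^ 3 * (M * N)) (cv (q j) (cv (q j) (cv (q j) f))) := by
    intro j
    have e1 : (fun t => ‖dp M₀ (q j) t‖ ^ 6 * ‖F t‖ ^ 2) = fun t =>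
        ‖dp (M₀ ^ 3 * (M * N)) (cv (q j) (cv (q j) (cv (q j) f))) t‖ ^ 2 := funext (hq6 j)
    rw [e1]
    exact ⟨((hD.2.2 _ _ 0).2.norm.pow 2), (hM T hT16 _ hlen3 _).2⟩
  have hmean := hd.mean (M * N) f hMN1 hMN (supp_zero hfs)
  -- the error function
  set g : ℝ → ℝ := fun t => (∑ j, 2 * |k j| * |Real.log ‖zt (t + α j)‖ - EP X (t + α j)|) +
    (4 * A * S3 + 2 * C₂) + ∑ j ∈ Finset.range J, 2 * w j * ‖dp M₀ (q j) t‖ ^ 6 with hg
  have hgF : ∀ t, g t * ‖F t‖ ^ 2 =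
      (∑ j, 2 * |k j| * (|Real.log ‖zt (t + α j)‖ - EP X (t + α j)| * ‖F t‖ ^ 2)) +
      (4 * A * S3 + 2 * C₂) * ‖F t‖ ^ 2 +
      ∑ j ∈ Finset.range J, 2 * w j * (‖dp M₀ (q j) t‖ ^ 6 * ‖F t‖ ^ 2) := by
    intro t
    simp only [hg]
    rw [add_mul, add_mul, Finset.sum_mul, Finset.sum_mul]
    congr 1
    · congr 1
      exact Finset.sum_congr rfl fun j _ => by ring
    · exact Finset.sum_congr rfl fun j _ => by ring
  have i1 : IntervalIntegrable (fun t => ∑ j, 2 * |k j| *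
      (|Real.log ‖zt (t + α j)‖ - EP X (t + α j)| * ‖F t‖ ^ 2)) volume T (2 * T) := by
    have := IntervalIntegrable.sum Finset.univ (f := fun j t => 2 * |k j| *
      (|Real.log ‖zt (t + α j)‖ - EP X (t + α j)| * ‖F t‖ ^ 2)) (μ := volume) (a := T) (b := 2 * T)
      fun j _ => (hsh j).1.const_mul _
    have e1 : (fun t => ∑ j, 2 * |k j| *
        (|Real.log ‖zt (t + α j)‖ - EP X (t + α j)| * ‖F t‖ ^ 2)) = ∑ j, fun t => 2 * |k j| *
        (|Real.log ‖zt (t + α j)‖ - EP X (t + α j)| * ‖F t‖ ^ 2) := by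
      funext t
      rw [Finset.sum_apply]
    rw [e1]
    exact this
  have i2 : IntervalIntegrable (fun t => ‖F t‖ ^ 2) volume T (2 * T) :=
    (hFc.norm.pow 2).intervalIntegrable _ _
  have i3 : IntervalIntegrable (fun t => ∑ j ∈ Finset.range J, 2 * w j *
      (‖dp M₀ (q j) t‖ ^ 6 * ‖F t‖ ^ 2)) volume T (2 * T) :=
    (continuous_finsetSum _ fun j _ => continuous_const.mul (hblk j).1).intervalIntegrable _ _
  have i3' : ∀ j ∈ Finset.range J, IntervalIntegrable (fun t => 2 * w j *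
      (‖dp M₀ (q j) t‖ ^ 6 * ‖F t‖ ^ 2)) volume T (2 * T) := fun j _ =>
    (continuous_const.mul (hblk j).1).intervalIntegrable _ _
  have igF : IntervalIntegrable (fun t => g t * ‖F t‖ ^ 2) volume T (2 * T) := by
    simp only [hgF]
    exact (i1.add (i2.const_mul _)).add i3
  have hTn : 0 ≤ T * n2 := mul_nonneg hT0.le hn20
  have hint : ∫ t in T..(2 * T), g t * ‖F t‖ ^ 2 ≤ K₁ * (T * n2) := by
    simp only [hgF]
    rw [intervalIntegral.integral_add (i1.add (i2.const_mul _)) i3,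
      intervalIntegral.integral_add i1 (i2.const_mul _), intervalIntegral.integral_const_mul]
    rw [intervalIntegral.integral_finsetSum fun j _ => (hsh j).1.const_mul _,
      intervalIntegral.integral_finsetSum i3']
    have b1 : ∑ j, ∫ t in T..(2 * T), 2 * |k j| *
        (|Real.log ‖zt (t + α j)‖ - EP X (t + α j)| * ‖F t‖ ^ 2) ≤ 2 * A * (C₁ * T * n2) := by
      calc ∑ j, ∫ t in T..(2 * T), 2 * |k j| *
          (|Real.log ‖zt (t + α j)‖ - EP X (t + α j)| * ‖F t‖ ^ 2)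
          ≤ ∑ j, 2 * |k j| * (C₁ * T * n2) := by
            refine Finset.sum_le_sum fun j _ => ?_
            rw [intervalIntegral.integral_const_mul]
            exact mul_le_mul_of_nonneg_left (hsh j).2 (by positivity)
        _ = 2 * (∑ j, |k j|) * (C₁ * T * n2) := by rw [← Finset.sum_mul, ← Finset.mul_sum]
        _ ≤ 2 * A * (C₁ * T * n2) := by
            refine mul_le_mul_of_nonneg_right (by linarith) (by positivity)
    have b3 : ∑ j ∈ Finset.range J, ∫ t in T..(2 * T), 2 * w j *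
        (‖dp M₀ (q j) t‖ ^ 6 * ‖F t‖ ^ 2) ≤ 4 * T * (C₂ * n2) := by
      calc ∑ j ∈ Finset.range J, ∫ t in T..(2 * T), 2 * w j * (‖dp M₀ (q j) t‖ ^ 6 * ‖F t‖ ^ 2)
          ≤ ∑ j ∈ Finset.range J, 4 * T * (w j *
              N2 (M₀ ^ 3 * (M * N)) (cv (q j) (cv (q j) (cv (q j) f)))) := by
            refine Finset.sum_le_sum fun j _ => ?_
            rw [intervalIntegral.integral_const_mul]
            have := mul_le_mul_of_nonneg_left (hblk j).2 (by have := hd.wn j; linarith : 0 ≤ 2 * w j)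
            refine this.trans (le_of_eq ?_)
            ring
        _ = 4 * T * ∑ j ∈ Finset.range J, w j *
              N2 (M₀ ^ 3 * (M * N)) (cv (q j) (cv (q j) (cv (q j) f))) := by rw [Finset.mul_sum]
        _ ≤ 4 * T * (C₂ * n2) := mul_le_mul_of_nonneg_left hmean (by positivity)
    have b2 : (4 * A * S3 + 2 * C₂) * ∫ t in T..(2 * T), ‖F t‖ ^ 2 ≤
        (4 * A * S3 + 2 * C₂) * (2 * T * n2) := mul_le_mul_of_nonneg_left m2 (by positivity)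
    rw [hK₁]
    linarith [(by ring : 2 * A * (C₁ * T * n2) + (4 * A * S3 + 2 * C₂) * (2 * T * n2) +
      4 * T * (C₂ * n2) = (2 * A * C₁ + 8 * A * S3 + 8 * C₂) * (T * n2))]
  -- the pointwise inequality
  set K : ℝ := K₁ / c₀ with hK
  have hpt : ∀ᵐ t : ℝ, Real.exp (-K) * ((1 + K) * ‖F t‖ ^ 2 - g t * ‖F t‖ ^ 2) ≤
      (∏ j, ‖zt (t + α j)‖ ^ (2 * k j)) * ‖dp N b t‖ ^ 2 := by
    have hae : ∀ᵐ t : ℝ, ∀ j, zt (t + α j) ≠ 0 := ae_all_iff.mpr fun j => ae_zt (α j)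
    refine hae.mono fun t ht => ?_
    have hnn : 0 ≤ (∏ j, ‖zt (t + α j)‖ ^ (2 * k j)) * ‖dp N b t‖ ^ 2 := by positivity
    by_cases hF0 : F t = 0
    · rw [hF0]
      simpa using hnn
    have hEB := hFeq t
    have hE0 : dp M e t ≠ 0 := fun h => hF0 (by rw [← hEB, h, zero_mul])
    have hprod : ∏ j, ‖zt (t + α j)‖ ^ (2 * k j) =
        Real.exp (∑ j, Real.log ‖zt (t + α j)‖ * (2 * k j)) := by
      rw [Real.exp_sum]
      exact Finset.prod_congr rfl fun j _ => Real.rpow_def_of_pos (norm_pos_iff.mpr (ht j)) _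
    have hEsq : ‖dp M e t‖ ^ 2 = Real.exp (2 * Real.log ‖dp M e t‖) := by
      rw [two_mul, Real.exp_add, Real.exp_log (norm_pos_iff.mpr hE0), sq]
    set h : ℝ := (∑ j, Real.log ‖zt (t + α j)‖ * (2 * k j)) - 2 * Real.log ‖dp M e t‖ with hh
    have hrhs : (∏ j, ‖zt (t + α j)‖ ^ (2 * k j)) * ‖dp N b t‖ ^ 2 = Real.exp h * ‖F t‖ ^ 2 := by
      rw [hprod, ← hEB, norm_mul, mul_pow, hh, Real.exp_sub, ← hEsq]
      have h8 : ‖dp M e t‖ ^ 2 ≠ 0 := pow_ne_zero 2 (norm_ne_zero_iff.mpr hE0)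
      rw [← mul_assoc, div_mul_cancel₀ _ h8]
    have hgh : -g t ≤ h := by
      have u1 := hd.up t hE0
      have u2 := abs_le.mp (EP_PA k α hk X t)
      have u3 : 2 * ∑ j, k j * EP X (t + α j) -
          (∑ j, 2 * |k j| * |Real.log ‖zt (t + α j)‖ - EP X (t + α j)|) ≤
          ∑ j, Real.log ‖zt (t + α j)‖ * (2 * k j) := by
        rw [Finset.mul_sum, ← Finset.sum_sub_distrib]
        refine Finset.sum_le_sum fun j _ => ?_
        have v1 : -(|k j| * |Real.log ‖zt (t + α j)‖ - EP X (t + α j)|) ≤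
            k j * (Real.log ‖zt (t + α j)‖ - EP X (t + α j)) := by
          rw [← abs_mul]
          exact neg_abs_le _
        linarith
      have u4 : ∑ j ∈ Finset.range J, 2 * w j * ‖dp M₀ (q j) t‖ ^ 6 =
          2 * ∑ j ∈ Finset.range J, w j * ‖dp M₀ (q j) t‖ ^ 6 := by
        rw [Finset.mul_sum]
        exact Finset.sum_congr rfl fun j _ => by ring
      simp only [hg, hh]
      rw [u4]
      linarith [u2.1]
    have h4 := exp_tangent (K := K) hgh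
    rw [hrhs]
    calc Real.exp (-K) * ((1 + K) * ‖F t‖ ^ 2 - g t * ‖F t‖ ^ 2)
        = Real.exp (-K) * (1 + K - g t) * ‖F t‖ ^ 2 := by ring
      _ ≤ Real.exp h * ‖F t‖ ^ 2 := mul_le_mul_of_nonneg_right h4 (by positivity)
  have iφ : IntervalIntegrable (fun t => Real.exp (-K) * ((1 + K) * ‖F t‖ ^ 2 - g t * ‖F t‖ ^ 2))
      volume T (2 * T) := ((i2.const_mul _).sub igF).const_mul _
  have h0T : T ≤ 2 * T := by linarith
  have toS : ∀ ψ : ℝ → ℝ, IntervalIntegrable ψ volume T (2 * T) → IntegrableOn ψ (S ix T) := fun ψ hψ =>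
    ((intervalIntegrable_iff_integrableOn_Icc_of_le h0T).mp hψ).mono_set (hSs ix T)
  refine le_trans (ENNReal.ofReal_le_ofReal ?_) (lint_lower_set (toS _ iφ) hpt)
  rw [integral_const_mul, integral_sub ((toS _ i2).const_mul _) (toS _ igF), integral_const_mul]
  set I₀ := ∫ t in S ix T, ‖F t‖ ^ 2 with hI₀
  have hI₀' : c₀ * (T * n2) ≤ I₀ :=
    hmass ix (M * N) (hMN.trans (Real.rpow_le_rpow_of_exponent_le hT1 (hδ3.trans (min_le_right _ _)))) f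
  have hg0 : ∀ t, 0 ≤ g t * ‖F t‖ ^ 2 := by
    intro t
    refine mul_nonneg ?_ (by positivity)
    simp only [hg]
    have w1 : 0 ≤ ∑ j, 2 * |k j| * |Real.log ‖zt (t + α j)‖ - EP X (t + α j)| :=
      Finset.sum_nonneg fun j _ => by positivity
    have w2 : 0 ≤ ∑ j ∈ Finset.range J, 2 * w j * ‖dp M₀ (q j) t‖ ^ 6 :=
      Finset.sum_nonneg fun j _ => mul_nonneg (by have := hd.wn j; linarith) (by positivity)
    have w3 : 0 ≤ 4 * A * S3 + 2 * C₂ := by positivity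
    linarith
  have hgS : ∫ t in S ix T, g t * ‖F t‖ ^ 2 ≤ K₁ * (T * n2) := by
    refine le_trans ?_ hint
    rw [intervalIntegral.integral_of_le h0T, ← integral_Icc_eq_integral_Ioc]
    refine setIntegral_mono_set ((intervalIntegrable_iff_integrableOn_Icc_of_le h0T).mp igF)
      (Eventually.of_forall hg0) ?_
    exact Eventually.of_forall (hSs ix T)
  have h5 : K₁ * (T * n2) ≤ K * I₀ := by
    have e1 : K₁ * (T * n2) = K * (c₀ * (T * n2)) := by rw [hK]; field_simp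
    rw [e1]
    exact mul_le_mul_of_nonneg_left hI₀' (by positivity)
  have h6 : I₀ ≤ (1 + K) * I₀ - ∫ t in S ix T, g t * ‖F t‖ ^ 2 := by linarith
  calc Real.exp (-(K₁ / c₀)) * c₀ * T * n2 = Real.exp (-K) * (c₀ * (T * n2)) := by rw [hK]; ring
    _ ≤ Real.exp (-K) * I₀ := mul_le_mul_of_nonneg_left hI₀' (Real.exp_pos _).le
    _ ≤ _ := mul_le_mul_of_nonneg_left h6 (Real.exp_pos _).le

open Pool.Agent.U196 in
/-- **The exact order relative to every Dirichlet polynomial.** -/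
theorem exact_sub {ι : Type*} {θ₀ c₀ : ℝ} (hθ₀ : 0 < θ₀) (hc₀ : 0 < c₀) (S : ι → ℝ → Set ℝ)
    (hSs : ∀ i T, S i T ⊆ Set.Icc T (2 * T))
    (hmass : ∀ᶠ T : ℝ in atTop, ∀ i, ∀ N : ℕ, (N : ℝ) ≤ T ^ θ₀ → ∀ b : ℕ → ℂ, c₀ * (T * N2 N b) ≤ ∫ t in S i T, ‖dp N b t‖ ^ 2)
    (n : ℕ) : ∃ θ c C : ℝ, 0 < θ ∧ 0 < c ∧ 0 < C ∧ ∀ᶠ T : ℝ in atTop, ∀ k α : Fin n → ℝ,
    (∀ j, 0 ≤ k j) → ∑ j, k j ≤ 1 → (∀ j, |α j| ≤ T / 2) → ∃ (M : ℕ) (e : ℕ → ℂ), (M : ℝ) ≤ T ^ (1 / 8 : ℝ) ∧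
      c * (T * UM.pred T k α) ≤ ∫ t in T..(2 * T), ‖dp M e t‖ ^ 2 ∧
      ∫ t in T..(2 * T), ‖dp M e t‖ ^ 2 ≤ C * (T * UM.pred T k α) ∧
      ∀ N : ℕ, (N : ℝ) ≤ T ^ θ → ∀ b : ℕ → ℂ,
        (∀ i, ENNReal.ofReal (c * ∫ t in T..(2 * T), ‖dp M e t * dp N b t‖ ^ 2) ≤
          (∫⁻ t in S i T, ENNReal.ofReal ((∏ j, ‖zt (t + α j)‖ ^ (2 * k j)) * ‖dp N b t‖ ^ 2))) ∧
        ∫ t in T..(2 * T), (∏ j, ‖zt (t + α j)‖ ^ (2 * k j)) * ‖dp N b t‖ ^ 2 ≤
          C * ∫ t in T..(2 * T), ‖dp M e t * dp N b t‖ ^ 2 := by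
  obtain ⟨κ₁, hκ₁, hU⟩ := b_UBM n
  obtain ⟨κ₂, hκ₂, hE⟩ := b_EK9 1 le_rfl
  obtain ⟨κ₃, hκ₃, c₃, C₃, hc₃, hC₃, hN⟩ := b_EN2 1 le_rfl
  set κ := max κ₁ (max κ₂ κ₃) with hκ
  have hκ4 : 4 ≤ κ := hκ₁.trans (le_max_left _ _)
  obtain ⟨δ₁, hδ₁, hU1⟩ := hU κ (le_max_left _ _)
  obtain ⟨δ₂, hδ₂, hL⟩ := lbk_sub hθ₀ hc₀ S hSs hmass 1 (13 / 10 * κ) le_rfl (by linarith)
  set δ := min δ₁ (min δ₂ (1 / (208 * κ))) with hδd
  have hδ : 0 < δ := by positivity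
  have hδκ : 208 * κ * δ ≤ 1 := by
    have : δ ≤ 1 / (208 * κ) := (min_le_right _ _).trans (min_le_right _ _)
    rw [le_div_iff₀ (by positivity)] at this
    linarith
  have hδ1 : δ ≤ 1 := by nlinarith
  obtain ⟨θ₁, C₁, hθ₁, hC₁, hU2⟩ := hU1 δ hδ (min_le_left _ _)
  obtain ⟨C₂, c₂, hC₂, hc₂, hE1⟩ := hE κ δ ((le_max_left _ _).trans (le_max_right _ _)) hδ
  obtain ⟨θ₂, c', hθ₂, hc', hL1⟩ := hL δ hδ ((min_le_right _ _).trans (min_le_left _ _)) C₂ c₂ hC₂ hc₂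
  obtain ⟨Cl, hCl⟩ := UM.prime_sum_lower hδ hδ1 (show (0:ℝ) ≤ 1 by norm_num)
  obtain ⟨Cu, hCu⟩ := UM.prime_sum_upper hδ hδ1 (show (0:ℝ) ≤ 1 by norm_num)
  refine ⟨min (min θ₁ θ₂) (1 / 8), min (c' / 2) (c₃ / 2 * Real.exp (-Cl)), 2 * C₁ + 2 * C₃ * Real.exp Cu + 1, by positivity,
    by positivity, by positivity, ?_⟩
  have eD : ∀ᶠ T : ℝ in atTop, 1 ≤ δ * Real.log T := by
    filter_upwards [Real.tendsto_log_atTop.eventually_ge_atTop (1 / δ)] with T hT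
    rw [div_le_iff₀ hδ] at hT
    linarith
  filter_upwards [hU2, hE1, hL1, hCl, hCu, eD, eventually_ge_atTop 16] with T g1 g2 g3 g4 g5 g6 hT16 k α hk0 hk1 hα
  have hT0 : 0 < T := by linarith
  have hkabs : ∑ j, |k j| ≤ 1 := by
    rw [Finset.sum_congr rfl fun j _ => abs_of_nonneg (hk0 j)]
    exact hk1
  have ha : ∀ m, ‖ap k α m‖ ≤ 1 := fun m => Pool.Agent.Q98.UM.norm_ap_le k α hkabs m
  have ha2 : ∀ m, ‖ap k (fun j => 2 * α j) m‖ ≤ 1 := fun m => Pool.Agent.Q98.UM.norm_ap_le k _ hkabs m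
  obtain ⟨J, M₀, q, w, hEK⟩ := g2 (ap k α) (ap k fun j => 2 * α j) ha ha2
  set D := δ * Real.log T with hD
  set M := M9 D κ with hM
  set e := ebk D κ (ap k α) (ap k fun j => 2 * α j) 0 (JB D) with he
  have hexpD : Real.exp D = T ^ δ := by rw [Real.rpow_def_of_pos hT0, mul_comm, hD, mul_comm]
  have hM8 : (M : ℝ) ≤ T ^ (1 / 8 : ℝ) := by
    refine hEK.len.trans (Real.rpow_le_rpow_of_exponent_le (by linarith) ?_)
    nlinarith
  have hM4 : (M : ℝ) ≤ T ^ (1 / 4 : ℝ) := hM8.trans (Real.rpow_le_rpow_of_exponent_le (by linarith) (by norm_num))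
  have hmv := Pool.Agent.Q84.UM.t_MVL T hT16 M hM4 e
  have hN2 := hN κ D (ap k α) (ap k fun j => 2 * α j) ((le_max_right _ _).trans (le_max_right _ _)) g6 ha ha2
  rw [hexpD] at hN2
  have hpred := UM.pred_nonneg T k α
  have l1 := g4 n k α hkabs
  have u1 := g5 n k α hkabs
  refine ⟨M, e, hM8, ?_, ?_, ?_⟩
  · calc min (c' / 2) (c₃ / 2 * Real.exp (-Cl)) * (T * UM.pred T k α) ≤ c₃ / 2 * Real.exp (-Cl) * (T * UM.pred T k α) :=
          mul_le_mul_of_nonneg_right (min_le_right _ _) (by positivity)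
      _ = T / 2 * (c₃ * (Real.exp (-Cl) * UM.pred T k α)) := by ring
      _ ≤ T / 2 * N2 M e := by
          refine mul_le_mul_of_nonneg_left ?_ (by linarith)
          exact (mul_le_mul_of_nonneg_left l1 hc₃.le).trans hN2.1
      _ ≤ _ := hmv.1
  · calc ∫ t in T..(2 * T), ‖dp M e t‖ ^ 2 ≤ 2 * T * N2 M e := hmv.2
      _ ≤ 2 * T * (C₃ * (Real.exp Cu * UM.pred T k α)) := by
          refine mul_le_mul_of_nonneg_left ?_ (by linarith)
          exact hN2.2.trans (mul_le_mul_of_nonneg_left u1 hC₃)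
      _ = 2 * C₃ * Real.exp Cu * (T * UM.pred T k α) := by ring
      _ ≤ _ := by
          refine mul_le_mul_of_nonneg_right ?_ (by positivity)
          linarith
  · intro N hNT b
    have hN1 : (N : ℝ) ≤ T ^ θ₁ := hNT.trans (Real.rpow_le_rpow_of_exponent_le (by linarith)
      ((min_le_left _ _).trans (min_le_left _ _)))
    have hN2' : (N : ℝ) ≤ T ^ θ₂ := hNT.trans (Real.rpow_le_rpow_of_exponent_le (by linarith)
      ((min_le_left _ _).trans (min_le_right _ _)))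
    have hN8 : (N : ℝ) ≤ T ^ (1 / 8 : ℝ) := hNT.trans (Real.rpow_le_rpow_of_exponent_le (by linarith) (min_le_right _ _))
    set b' : ℕ → ℂ := fun n => if 1 ≤ n ∧ n ≤ N then b n else 0 with hb'
    have hb's : ∀ m, b' m ≠ 0 → 1 ≤ m ∧ m ≤ N := by
      intro m hm
      by_contra hcon
      apply hm
      rw [hb']
      simp only
      rw [if_neg hcon]
    have hdp : ∀ t, dp N b' t = dp N b t := by
      intro t
      unfold dp
      refine Finset.sum_congr rfl fun m hm => ?_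
      rw [hb']
      simp only
      rw [if_pos (Finset.mem_Icc.mp hm)]
    have h5 : ∀ t, dp M e t * dp N b t = dp (M * N) (cv e b') t := by
      intro t
      rw [← hdp t]
      exact Pool.Agent.Q84.UM.t_DPM.1 M N e b' t (Pool.Agent.Q98.UM.supp_zero hEK.supp) (Pool.Agent.Q98.UM.supp_zero hb's)
    have hMN : ((M * N : ℕ) : ℝ) ≤ T ^ (1 / 4 : ℝ) := by
      push_cast
      calc (M : ℝ) * N ≤ T ^ (1 / 8 : ℝ) * T ^ (1 / 8 : ℝ) := mul_le_mul hM8 hN8 (by positivity) (by positivity)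
        _ = T ^ (1 / 4 : ℝ) := by rw [← Real.rpow_add hT0]; norm_num
    have h6 := Pool.Agent.Q84.UM.t_MVL T hT16 (M * N) hMN (cv e b')
    have h7 : 0 ≤ ∫ t in T..(2 * T), ‖dp (M * N) (cv e b') t‖ ^ 2 :=
      intervalIntegral.integral_nonneg (by linarith) fun t _ => by positivity
    simp_rw [h5]
    constructor
    · intro ix
      have h4 := g3 n k α hkabs hα M e J M₀ q w hEK ix N hN2' b' hb's
      simp_rw [hdp] at h4
      refine le_trans (ENNReal.ofReal_le_ofReal ?_) h4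
      calc min (c' / 2) (c₃ / 2 * Real.exp (-Cl)) * ∫ t in T..(2 * T), ‖dp (M * N) (cv e b') t‖ ^ 2
          ≤ c' / 2 * ∫ t in T..(2 * T), ‖dp (M * N) (cv e b') t‖ ^ 2 := mul_le_mul_of_nonneg_right (min_le_left _ _) h7
        _ ≤ c' / 2 * (2 * T * N2 (M * N) (cv e b')) := mul_le_mul_of_nonneg_left h6.2 (by positivity)
        _ = c' * T * N2 (M * N) (cv e b') := by ring
    · have h4 := g1 k α hk0 hk1 hα N hN1 b' hb's
      simp_rw [hdp] at h4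
      refine h4.trans ?_
      have h8 : C₁ * T * N2 (M * N) (cv e b') ≤ 2 * C₁ * ∫ t in T..(2 * T), ‖dp (M * N) (cv e b') t‖ ^ 2 := by
        have := mul_le_mul_of_nonneg_left h6.1 (show 0 ≤ 2 * C₁ by positivity)
        linarith
      refine h8.trans (mul_le_mul_of_nonneg_right ?_ h7)
      have : 0 ≤ 2 * C₃ * Real.exp Cu := by positivity
      linarith


end Pool.Agent.U196.SH
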