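import Pool.Agent.U196.SN.Fin
import Pool.Agent.Q97.UM.IsoF

/-!
# Project SH (helper196): the mass of every Dirichlet polynomial on the sets where Hardy's function has a given sign
-/

set_option autoImplicit false

namespace Pool.Agent.U196.SH

open Filter Topology MeasureTheory Complex
open Pool.Agent.Q97.UM
open Pool.Agent.U196.SN
open Pool.Agent.R304.SG (Z Z_zero_iff Z_cont Z_re sg sg_const)

noncomputable section

/-- the points of `[T, 2T]` at which `σ Z > 0` and whose distance from all nontrivial zeros is at least `δ / log T` -/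
def SS (δ σ T : ℝ) : Set ℝ := {t : ℝ | T ≤ t ∧ t ≤ 2 * T ∧ 0 < σ * (Z t).re ∧
  ∀ s : ℂ, riemannZeta s = 0 → 0 < s.re → s.re < 1 → δ / Real.log T ≤ ‖s - (1 / 2 + I * t)‖}

lemma SS_sub (δ σ T : ℝ) : SS δ σ T ⊆ Set.Icc T (2 * T) := fun _ h => ⟨h.1, h.2.1⟩

lemma SS_meas (δ σ T : ℝ) : MeasurableSet (SS δ σ T) := by
  have e : SS δ σ T = Set.Icc T (2 * T) ∩ ({t : ℝ | 0 < σ * (Z t).re} ∩
      ⋂ s ∈ {s : ℂ | riemannZeta s = 0 ∧ 0 < s.re ∧ s.re < 1}, {t : ℝ | δ / Real.log T ≤ ‖s - (1 / 2 + I * t)‖}) := by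
    ext t
    simp only [SS, Set.mem_ofPred_eq, Set.mem_inter_iff, Set.mem_Icc, Set.mem_iInter]
    constructor
    · rintro ⟨h1, h2, h3, h4⟩
      exact ⟨⟨h1, h2⟩, h3, fun s hs => h4 s hs.1 hs.2.1 hs.2.2⟩
    · rintro ⟨⟨h1, h2⟩, h3, h4⟩
      exact ⟨h1, h2, h3, fun s a b c => h4 s ⟨a, b, c⟩⟩
  rw [e]
  refine measurableSet_Icc.inter ((IsOpen.measurableSet ?_).inter (IsClosed.measurableSet ?_))
  · exact isOpen_lt continuous_const (continuous_const.mul (Complex.continuous_re.comp Z_cont))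
  · refine isClosed_biInter fun s _ => isClosed_le continuous_const ?_
    fun_prop

/-- the sign of `Z` to the right of an isolated zero -/
lemma sign_right {σ d T : ℝ} (hσ : σ = 1 ∨ σ = -1) (hT : 16 ≤ T) (hd : d ≤ 1) {s : ℂ} (hs : s ∈ SN.ZS σ d T) {t : ℝ}
    (h1 : s.im < t) (h2 : t < s.im + d / Real.log T) : 0 < σ * (Z t).re := by
  unfold SN.ZS at hs
  rw [Finset.mem_filter, mem_ZI_iff hT hd] at hs
  obtain ⟨⟨g1, g2, g3, g4, g5, g6⟩, g7⟩ := hs
  have hse : (1 / 2 + I * s.im : ℂ) = s := half_eq g1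
  -- no zeros between
  have hno : ∀ u : ℝ, s.im < u → u < s.im + d / Real.log T → (Z u).re ≠ 0 := by
    intro u hu1 hu2 h0
    have hZ0 : Z u = 0 := by rw [← Z_re, h0]; simp
    have hz := (Z_zero_iff u).mp hZ0
    have h3 := g6 (1 / 2 + I * u) hz (by rw [half_re]; norm_num) (by rw [half_re]; norm_num) (by
      intro h
      have : u = s.im := by rw [← h, half_im]
      linarith)
    have h4 : ‖(1 / 2 + I * u : ℂ) - s‖ = u - s.im := by
      rw [← hse]
      have : (1 / 2 + I * u : ℂ) - (1 / 2 + I * s.im) = I * ((u - s.im : ℝ) : ℂ) := by push_cast; ring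
      rw [this, norm_mul, Complex.norm_I, one_mul, Complex.norm_real, Real.norm_eq_abs, abs_of_pos (by linarith)]
      simp
    first
      | rw [h4] at h3
        linarith
      | rw [norm_sub_rev, h4] at h3
        linarith
  have hZc : Continuous fun t => (Z t).re := Complex.continuous_re.comp Z_cont
  -- derivative
  have hz0 : Z s.im = 0 := (Z_zero_iff s.im).mpr (by rw [hse]; exact g4)
  have hderC : HasDerivAt Z (deriv Z s.im) s.im := by
    have := Pool.Agent.Results.MP_6bc78b_nt.SimpleZerosOfZ.Z_hasDerivAt s.im (by rw [hse]; exact g4)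
    exact this.differentiableAt.hasDerivAt
  have hder : HasDerivAt (fun t => σ * (Z t).re) (σ * dZ s) s.im :=
    (Complex.reCLM.hasFDerivAt.comp_hasDerivAt s.im hderC).const_mul σ
  have hval : σ * (Z s.im).re = 0 := by simp [hz0]
  have hev : ∀ᶠ x in 𝓝[>] s.im, 0 < σ * (Z x).re := by
    have h5 := (hasDerivAt_iff_tendsto_slope.1 hder).mono_left (nhdsWithin_mono s.im (fun x (hx : x ∈ Set.Ioi s.im) => (ne_of_gt hx : x ≠ s.im)))
    have h6 : ∀ᶠ x in 𝓝[>] s.im, 0 < slope (fun t => σ * (Z t).re) s.im x := h5.eventually (lt_mem_nhds g7)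
    filter_upwards [h6, self_mem_nhdsWithin] with x hx hx2
    have hx3 : s.im < x := hx2
    rw [slope_def_field, hval, sub_zero] at hx
    have := (div_pos_iff.1 hx).resolve_right (fun h => by linarith [h.2])
    exact this.1
  obtain ⟨x, hx1, hx2⟩ := (hev.and (Ioo_mem_nhdsGT h1)).exists
  -- from x to t
  have hsg := sg_const hZc hx2.2.le (fun u hu => hno u (lt_of_lt_of_le hx2.1 hu.1) (lt_of_le_of_lt hu.2 h2))
  have hne := hno t h1 h2
  unfold sg at hsg
  rcases hσ with hσ | hσ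
  · rw [hσ, one_mul] at hx1 ⊢
    rw [if_pos hx1] at hsg
    by_contra hc
    rw [if_neg hc] at hsg
    norm_num at hsg
  · rw [hσ] at hx1 ⊢
    have hx3 : (Z x).re < 0 := by linarith
    rw [if_neg (by linarith)] at hsg
    by_contra hc
    have : 0 < (Z t).re := lt_of_le_of_ne (by linarith) (Ne.symm hne)
    rw [if_pos this] at hsg
    norm_num at hsg

/-- the middle part of the interval lies in `SS` -/
lemma mid_SS {σ d T : ℝ} (hσ : σ = 1 ∨ σ = -1) (hT : 16 ≤ T) (hd0 : 0 < d) (hd : d ≤ 1) {s : ℂ} (hs : s ∈ SN.ZS σ d T) {t : ℝ}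
    (h1 : s.im + d / (4 * Real.log T) ≤ t) (h2 : t ≤ s.im + 3 * (d / (4 * Real.log T))) (h3 : t ≤ 2 * T) : t ∈ SS (d / 4) σ T := by
  have hL : 0 < Real.log T := Real.log_pos (by linarith)
  have hh : 0 < d / (4 * Real.log T) := by positivity
  have he : d / Real.log T = 4 * (d / (4 * Real.log T)) := by field_simp
  have he2 : d / 4 / Real.log T = d / (4 * Real.log T) := by field_simp
  have hs' := hs
  unfold SN.ZS at hs
  rw [Finset.mem_filter, mem_ZI_iff hT hd] at hs
  obtain ⟨⟨g1, g2, g3, g4, g5, g6⟩, g7⟩ := hs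
  have hse : (1 / 2 + I * s.im : ℂ) = s := half_eq g1
  refine ⟨by linarith, h3, sign_right hσ hT hd hs' (by linarith) (by rw [he]; linarith), fun s' z1 z2 z3 => ?_⟩
  rw [he2]
  have h4 : ‖s - (1 / 2 + I * t)‖ = t - s.im := by
    rw [← hse]
    have : (1 / 2 + I * ((1 / 2 + I * s.im : ℂ).im : ℂ) : ℂ) - (1 / 2 + I * t) = I * ((s.im - t : ℝ) : ℂ) := by
      rw [half_im]; push_cast; ring
    rw [half_im] at *
    rw [show (1 / 2 + I * (s.im : ℂ) : ℂ) - (1 / 2 + I * t) = I * ((s.im - t : ℝ) : ℂ) by push_cast; ring, norm_mul, Complex.norm_I,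
      one_mul, Complex.norm_real, Real.norm_eq_abs, abs_of_nonpos (by linarith)]
    ring
  by_cases hss : s' = s
  · rw [hss, h4]; linarith
  · have h5 := g6 s' z1 z2 z3 hss
    have h6 : d / Real.log T ≤ ‖s' - s‖ := h5
    have h7 : ‖s' - s‖ ≤ ‖s' - (1 / 2 + I * t)‖ + ‖s - (1 / 2 + I * t)‖ := by
      have := norm_sub_le_norm_sub_add_norm_sub s' (1 / 2 + I * t) s
      rw [norm_sub_rev (1 / 2 + I * (t : ℂ)) s] at this
      exact this
    rw [h4] at h7
    linarith

/-- two isolated zeros -/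
lemma sep {σ d T : ℝ} (hT : 16 ≤ T) (hd : d ≤ 1) {s s' : ℂ} (hs : s ∈ SN.ZS σ d T) (hs' : s' ∈ SN.ZS σ d T) (hne : s ≠ s') :
    d / Real.log T ≤ |s.im - s'.im| := by
  unfold SN.ZS at hs hs'
  rw [Finset.mem_filter, mem_ZI_iff hT hd] at hs hs'
  obtain ⟨⟨g1, g2, g3, g4, g5, g6⟩, g7⟩ := hs
  obtain ⟨⟨k1, k2, k3, k4, k5, k6⟩, k7⟩ := hs'
  have h1 := k6 s g4 (by rw [g1]; norm_num) (by rw [g1]; norm_num) hne
  have h2 : s - s' = I * ((s.im - s'.im : ℝ) : ℂ) := by
    rw [← half_eq g1, ← half_eq k1, half_im, half_im]; push_cast; ring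
  rw [h2, norm_mul, Complex.norm_I, one_mul, Complex.norm_real, Real.norm_eq_abs] at h1
  exact h1

/-- every value is at most the value at the end plus the variation -/
lemma f_le_end (N : ℕ) (b : ℕ → ℂ) {T t : ℝ} (h1 : T ≤ t) (h2 : t ≤ 2 * T) :
    ‖dp N b t‖ ^ 2 ≤ |‖dp N b (2 * T)‖ ^ 2| + ∫ x in T..(2 * T), |dv N b x| := by
  have e1 : ∫ x in t..(2 * T), dv N b x = ‖dp N b (2 * T)‖ ^ 2 - ‖dp N b t‖ ^ 2 :=
    intervalIntegral.integral_eq_sub_of_hasDerivAt (fun t _ => SN.hasDeriv N b t) ((dv_cont N b).intervalIntegrable _ _)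
  have e2 : -∫ x in t..(2 * T), |dv N b x| ≤ ∫ x in t..(2 * T), dv N b x := by
    rw [← intervalIntegral.integral_neg]
    exact intervalIntegral.integral_mono_on h2 ((dv_cont N b).abs.neg.intervalIntegrable _ _)
      ((dv_cont N b).intervalIntegrable _ _) fun x _ => neg_abs_le _
  have e3 : ∫ x in t..(2 * T), |dv N b x| ≤ ∫ x in T..(2 * T), |dv N b x| := by
    rw [← intervalIntegral.integral_add_adjacent_intervals (a := T) (b := t) (c := 2 * T)
      ((dv_cont N b).abs.intervalIntegrable _ _) ((dv_cont N b).abs.intervalIntegrable _ _)]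
    have : 0 ≤ ∫ x in T..t, |dv N b x| := intervalIntegral.integral_nonneg h1 fun x _ => abs_nonneg _
    linarith
  have e4 := le_abs_self (‖dp N b (2 * T)‖ ^ 2)
  linarith

/-- a value against the mean over the middle part and the variation -/
lemma f_le_mid (N : ℕ) (b : ℕ → ℂ) {u h : ℝ} (hh : 0 < h) :
    2 * h * ‖dp N b u‖ ^ 2 ≤ (∫ t in (u + h)..(u + 3 * h), ‖dp N b t‖ ^ 2) + 2 * h * ∫ x in u..(u + 4 * h), |dv N b x| := by
  set V := ∫ x in u..(u + 4 * h), |dv N b x| with hV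
  have h1 : ∀ t ∈ Set.Icc (u + h) (u + 3 * h), ‖dp N b u‖ ^ 2 ≤ ‖dp N b t‖ ^ 2 + V := by
    intro t ht
    have hut : u ≤ t := by linarith [ht.1]
    have ht4 : t ≤ u + 4 * h := by linarith [ht.2]
    have e1 : ∫ x in u..t, dv N b x = ‖dp N b t‖ ^ 2 - ‖dp N b u‖ ^ 2 :=
      intervalIntegral.integral_eq_sub_of_hasDerivAt (fun t _ => SN.hasDeriv N b t) ((dv_cont N b).intervalIntegrable _ _)
    have e2 : -∫ x in u..t, |dv N b x| ≤ ∫ x in u..t, dv N b x := by
      rw [← intervalIntegral.integral_neg]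
      exact intervalIntegral.integral_mono_on hut ((dv_cont N b).abs.neg.intervalIntegrable _ _)
        ((dv_cont N b).intervalIntegrable _ _) fun x _ => neg_abs_le _
    have e3 : ∫ x in u..t, |dv N b x| ≤ V := by
      rw [hV, ← intervalIntegral.integral_add_adjacent_intervals (a := u) (b := t) (c := u + 4 * h)
        ((dv_cont N b).abs.intervalIntegrable _ _) ((dv_cont N b).abs.intervalIntegrable _ _)]
      have : 0 ≤ ∫ x in t..(u + 4 * h), |dv N b x| := intervalIntegral.integral_nonneg ht4 fun x _ => abs_nonneg _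
      linarith
    linarith
  have hc : Continuous fun t => ‖dp N b t‖ ^ 2 := (dp_cont N b).norm.pow 2
  have h2 : ∫ t in (u + h)..(u + 3 * h), ‖dp N b u‖ ^ 2 ≤ ∫ t in (u + h)..(u + 3 * h), (‖dp N b t‖ ^ 2 + V) :=
    intervalIntegral.integral_mono_on (by linarith) (by simp) ((hc.add continuous_const).intervalIntegrable _ _) h1
  rw [intervalIntegral.integral_add (hc.intervalIntegrable _ _) (continuous_const.intervalIntegrable _ _),
    intervalIntegral.integral_const, intervalIntegral.integral_const, smul_eq_mul, smul_eq_mul] at h2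
  have e5 : u + 3 * h - (u + h) = 2 * h := by ring
  rw [e5] at h2
  exact h2

open Classical in
/-- **the mass of every Dirichlet polynomial on the points of each sign, away from the zeros** -/
theorem mass : ∃ δ θ c : ℝ, 0 < δ ∧ 0 < θ ∧ θ ≤ 1 / 40 ∧ 0 < c ∧ ∀ᶠ T : ℝ in atTop, ∀ σ : ℝ, σ = 1 ∨ σ = -1 →
    ∀ N : ℕ, (N : ℝ) ≤ T ^ θ → ∀ b : ℕ → ℂ, c * (T * N2 N b) ≤ ∫ t in SS δ σ T, ‖dp N b t‖ ^ 2 := by
  obtain ⟨d, θ₁, hd, hd1, hθ₁, hbase⟩ := iso_base
  set θ : ℝ := min θ₁ (1 / 1600) with hθ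
  have hθ0 : 0 < θ := by positivity
  have hθ16 : θ ≤ 1 / 1600 := min_le_right _ _
  refine ⟨d / 4, θ, d / 160, by positivity, hθ0, by linarith, by positivity, ?_⟩
  filter_upwards [hbase, tv hθ0 (by linarith), eventually_ge_atTop 16] with T h1 h2 hT σ hσ N hN b
  have hT1 : 1 ≤ T := by linarith
  have hL : 0 < Real.log T := Real.log_pos (by linarith)
  have a1 := (h1 N (hN.trans (Real.rpow_le_rpow_of_exponent_le hT1 (min_le_left _ _))) b σ hσ).2
  have a2 := h2 N hN b
  have hn : 0 ≤ N2 N b := Pool.Agent.Q98.UM.N2_nonneg _ _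
  set f : ℝ → ℝ := fun t => ‖dp N b t‖ ^ 2 with hf
  set V := ∫ x in T..(2 * T), |dv N b x| with hV
  set G := SN.ZS σ d T with hG
  set h := d / (4 * Real.log T) with hh
  have hh0 : 0 < h := by positivity
  have he : d / Real.log T = 4 * h := by rw [hh]; field_simp
  have hc : Continuous f := (dp_cont N b).norm.pow 2
  have hmem : ∀ s ∈ G, T < s.im ∧ s.im ≤ 2 * T := by
    intro s hs
    rw [hG] at hs
    unfold SN.ZS at hs
    rw [Finset.mem_filter, mem_ZI_iff hT hd1] at hs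
    exact ⟨hs.1.2.1, hs.1.2.2.1⟩
  set G₁ := G.filter (fun s => s.im + 4 * h ≤ 2 * T) with hG₁
  set G₂ := G.filter (fun s => ¬ s.im + 4 * h ≤ 2 * T) with hG₂
  have hsplit : ∑ s ∈ G, f s.im = ∑ s ∈ G₁, f s.im + ∑ s ∈ G₂, f s.im :=
    (Finset.sum_filter_add_sum_filter_not G _ _).symm
  -- the last zero
  have hG2 : ∑ s ∈ G₂, f s.im ≤ |f (2 * T)| + V := by
    have hcard : G₂.card ≤ 1 := by
      rw [Finset.card_le_one]
      intro s hs s' hs'
      rw [hG₂, Finset.mem_filter] at hs hs'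
      by_contra hne
      have h3 := sep hT hd1 hs.1 hs'.1 hne
      rw [he] at h3
      have h4 := hmem s hs.1
      have h5 := hmem s' hs'.1
      have h6 : |s.im - s'.im| < 4 * h := by
        rw [abs_lt]
        constructor <;> linarith [hs.2, hs'.2, h4.2, h5.2]
      linarith
    have hV0 : 0 ≤ |f (2 * T)| + V := by
      have : 0 ≤ V := intervalIntegral.integral_nonneg (by linarith) fun x _ => abs_nonneg _
      positivity
    calc ∑ s ∈ G₂, f s.im ≤ ∑ s ∈ G₂, (|f (2 * T)| + V) :=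
          Finset.sum_le_sum fun s hs => f_le_end N b (hmem s (Finset.mem_of_mem_filter s hs)).1.le (hmem s (Finset.mem_of_mem_filter s hs)).2
      _ = (G₂.card : ℝ) * (|f (2 * T)| + V) := by rw [Finset.sum_const, nsmul_eq_mul]
      _ ≤ 1 * (|f (2 * T)| + V) := mul_le_mul_of_nonneg_right (by exact_mod_cast hcard) hV0
      _ = _ := one_mul _
  -- disjointness
  have hsep : ∀ s ∈ G₁, ∀ s' ∈ G₁, s ≠ s' → s.im + 4 * h ≤ s'.im ∨ s'.im + 4 * h ≤ s.im := by
    intro s hs s' hs' hne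
    have h3 := sep hT hd1 (Finset.mem_of_mem_filter s hs) (Finset.mem_of_mem_filter s' hs') hne
    rw [he] at h3
    rcases le_abs'.1 h3 with h4 | h4
    · left; linarith
    · right; linarith
  have hI1 : ∑ s ∈ G₁, ∫ t in (s.im + h)..(s.im + 3 * h), f t ≤ ∫ t in SS (d / 4) σ T, f t := by
    have e1 : ∑ s ∈ G₁, ∫ t in (s.im + h)..(s.im + 3 * h), f t = ∫ t in ⋃ s ∈ G₁, Set.Ioc (s.im + h) (s.im + 3 * h), f t := by
      rw [integral_biUnion_finset]
      · exact Finset.sum_congr rfl fun s _ => intervalIntegral.integral_of_le (by linarith)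
      · exact fun s _ => measurableSet_Ioc
      · intro s hs s' hs' hne
        rw [Function.onFun, Set.disjoint_left]
        intro t ht ht'
        rcases hsep s hs s' hs' hne with h4 | h4
        · linarith [ht.2, ht'.1]
        · linarith [ht.1, ht'.2]
      · exact fun s _ => (hc.integrableOn_Icc).mono_set Set.Ioc_subset_Icc_self
    rw [e1]
    refine setIntegral_mono_set ?_ ?_ ?_
    · exact (hc.integrableOn_Icc (a := T) (b := 2 * T)).mono_set (SS_sub _ _ _)
    · exact Eventually.of_forall fun t => by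
        simp only [hf, Pi.zero_apply]
        positivity
    · refine HasSubset.Subset.eventuallyLE ?_
      intro t ht
      simp only [Set.mem_iUnion] at ht
      obtain ⟨s, hs, ht⟩ := ht
      rw [hG₁, Finset.mem_filter] at hs
      exact mid_SS hσ hT hd hd1 hs.1 ht.1.le ht.2 (by linarith [hs.2, ht.2])
  have hI2 : ∑ s ∈ G₁, ∫ t in s.im..(s.im + 4 * h), |dv N b t| ≤ V := by
    have hc2 : Continuous fun t => |dv N b t| := (dv_cont N b).abs
    have e1 : ∑ s ∈ G₁, ∫ t in s.im..(s.im + 4 * h), |dv N b t| = ∫ t in ⋃ s ∈ G₁, Set.Ioc s.im (s.im + 4 * h), |dv N b t| := by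
      rw [integral_biUnion_finset]
      · exact Finset.sum_congr rfl fun s _ => intervalIntegral.integral_of_le (by linarith)
      · exact fun s _ => measurableSet_Ioc
      · intro s hs s' hs' hne
        rw [Function.onFun, Set.disjoint_left]
        intro t ht ht'
        rcases hsep s hs s' hs' hne with h4 | h4
        · linarith [ht.2, ht'.1]
        · linarith [ht.1, ht'.2]
      · exact fun s _ => (hc2.integrableOn_Icc).mono_set Set.Ioc_subset_Icc_self
    rw [e1, hV, intervalIntegral.integral_of_le (by linarith)]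
    refine setIntegral_mono_set ?_ ?_ ?_
    · exact (hc2.integrableOn_Icc).mono_set Set.Ioc_subset_Icc_self
    · exact Eventually.of_forall fun t => abs_nonneg _
    · refine HasSubset.Subset.eventuallyLE ?_
      intro t ht
      simp only [Set.mem_iUnion] at ht
      obtain ⟨s, hs, ht⟩ := ht
      rw [hG₁, Finset.mem_filter] at hs
      have h4 := hmem s hs.1
      exact ⟨by linarith [ht.1], by linarith [ht.2, hs.2]⟩
  have hsum : 2 * h * ∑ s ∈ G₁, f s.im ≤ (∫ t in SS (d / 4) σ T, f t) + 2 * h * V := by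
    calc 2 * h * ∑ s ∈ G₁, f s.im = ∑ s ∈ G₁, 2 * h * f s.im := Finset.mul_sum _ _ _
      _ ≤ ∑ s ∈ G₁, ((∫ t in (s.im + h)..(s.im + 3 * h), f t) + 2 * h * ∫ x in s.im..(s.im + 4 * h), |dv N b x|) :=
          Finset.sum_le_sum fun s _ => f_le_mid N b hh0
      _ = ∑ s ∈ G₁, (∫ t in (s.im + h)..(s.im + 3 * h), f t) + 2 * h * ∑ s ∈ G₁, ∫ x in s.im..(s.im + 4 * h), |dv N b x| := by
          rw [Finset.sum_add_distrib, Finset.mul_sum]
      _ ≤ _ := add_le_add hI1 (mul_le_mul_of_nonneg_left hI2 (by positivity))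
  have hθX : 10 * θ * (Real.log T * (T * N2 N b)) ≤ 1 / 160 * (Real.log T * (T * N2 N b)) :=
    mul_le_mul_of_nonneg_right (by linarith) (by positivity)
  set X := Real.log T * (T * N2 N b) with hX
  have hfe : 0 ≤ |f (2 * T)| := abs_nonneg _
  have hV1 : V ≤ 1 / 160 * X := by linarith
  have h5 : 1 / 80 * X ≤ ∑ s ∈ G₁, f s.im - V := by linarith
  have h6 : 2 * h * (1 / 80 * X) ≤ ∫ t in SS (d / 4) σ T, f t := by
    have := mul_le_mul_of_nonneg_left h5 (by positivity : 0 ≤ 2 * h)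
    linarith
  refine le_trans (le_of_eq ?_) h6
  rw [hX, hh]
  field_simp
  ring

end

end Pool.Agent.U196.SH
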