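import Pool.Agent.U196.SH.Near
import Pool.Agent.U85.Ml.Un
import Pool.Agent.U85.Ml.Mw

/-!
# Project SH (helper196): points of a given sign with normal local statistics of the zeros carry a positive share of every mass
-/

set_option autoImplicit false

namespace Pool.Agent.U196.SH

open Filter Topology MeasureTheory Complex
open Pool.Agent.Q97.UM
open Pool.Agent.U85.Ml (Fw Clo)

noncomputable section

/-- normal local statistics of the zeros in the window `|γ - t| ≤ H / log T` -/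
def Nor (K a ε H T t : ℝ) : Prop :=
  (∀ x : ℝ, ε ≤ x → x ≤ a → |(∫ α in (0 : ℝ)..x, Fw T H α t) - (1 + x ^ 2) / 2| ≤ ε) ∧
  Clo t (H / Real.log T) (0.825 * (2 * Real.pi / Real.log T)) ∧
  |(cnt t (H / Real.log T) : ℝ) - H / Real.pi| ≤ K * Real.sqrt (Real.log H)

theorem nearS {d θ₁ c₀ : ℝ} (hθ₁ : 0 < θ₁) (hc₀ : 0 < c₀) (hm : HM d θ₁ c₀) : ∃ K : ℝ, 0 < K ∧ ∀ a : ℝ, a < 1 / 2 → ∀ ε : ℝ, 0 < ε →
    ∃ H₀ : ℝ, 3 ≤ H₀ ∧ ∀ H : ℝ, H₀ ≤ H → ∃ θ₂ : ℝ, 0 < θ₂ ∧ ∃ S : Sg → ℝ → Set ℝ, (∀ i T, MeasurableSet (S i T)) ∧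
      (∀ i T, S i T ⊆ SS d i.1 T) ∧ (∀ i T, ∀ t ∈ S i T, Nor K a ε H T t) ∧ HV S θ₂ (c₀ / 2) := by
  obtain ⟨K, hK, hcount⟩ := count_bad (show 0 < c₀ / 6 by positivity)
  refine ⟨K, hK, fun a ha ε hε => ?_⟩
  set ε₁ : ℝ := min ε (c₀ / 12) with hε₁
  have hε₁0 : 0 < ε₁ := by positivity
  obtain ⟨H₁, hH₁, h1⟩ := Pool.Agent.U85.Ml.cdf_all a ha ε₁ hε₁0
  obtain ⟨H₂, hH₂, h2⟩ := Pool.Agent.U85.Ml.micro_all (c₀ / 12) (by positivity)
  refine ⟨max (max H₁ H₂) 3, le_max_right _ _, fun H hH => ?_⟩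
  have hHH₁ : H₁ ≤ H := ((le_max_left _ _).trans (le_max_left _ _)).trans hH
  have hHH₂ : H₂ ≤ H := ((le_max_right _ _).trans (le_max_left _ _)).trans hH
  have hHH₃ : 3 ≤ H := (le_max_right _ _).trans hH
  obtain ⟨θa, Ta, hθa, hTa, h1⟩ := h1 H hHH₁
  obtain ⟨θb, Tb, hθb, hTb, h2⟩ := h2 H hHH₂
  obtain ⟨θc, hθc, h3⟩ := hcount H hHH₃
  set θ₂ : ℝ := min (min θ₁ (1 / 4)) (min θa (min θb θc)) with hθ₂
  have hθ₂0 : 0 < θ₂ := by positivity
  set A1 : ℝ → Set ℝ := fun T => {t : ℝ | t ∈ Set.Icc T (2 * T) ∧ ∃ x : ℝ, ε₁ ≤ x ∧ x ≤ a ∧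
    ε₁ < |(∫ α in (0 : ℝ)..x, Fw T H α t) - (1 + x ^ 2) / 2|} with hA1
  set A2 : ℝ → Set ℝ := fun T => {t : ℝ | t ∈ Set.Icc T (2 * T) ∧ ¬ Clo t (H / Real.log T) (0.825 * (2 * Real.pi / Real.log T))}
    with hA2
  have s1 : ∀ T, A1 T ⊆ Set.Icc T (2 * T) := fun T t ht => ht.1
  have s2 : ∀ T, A2 T ⊆ Set.Icc T (2 * T) := fun T t ht => ht.1
  have s3 : ∀ T, bad3 K H T ⊆ Set.Icc T (2 * T) := fun T t ht => ht.1
  set U : ℝ → Set ℝ := fun T => hull T (A1 T) ∪ (hull T (A2 T) ∪ hull T (bad3 K H T)) with hU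
  have hUm : ∀ T, MeasurableSet (U T) := fun T => (hull_meas _ _).union ((hull_meas _ _).union (hull_meas _ _))
  have hhI : ∀ T (B : Set ℝ), hull T B ⊆ Set.Icc T (2 * T) := fun T B t ht => ht.2
  refine ⟨θ₂, hθ₂0, fun i T => SS d i.1 T \ U T, fun i T => (SS_meas d i.1 T).diff (hUm T), fun i T => Set.sdiff_subset, ?_, ?_⟩
  · intro i T t ht
    obtain ⟨ht1, ht2⟩ := ht
    have htI := SS_sub d i.1 T ht1
    refine ⟨fun x hx1 hx2 => ?_, ?_, ?_⟩
    · by_contra hc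
      push Not at hc
      exact ht2 (Or.inl (hull_sub (s1 T) ⟨htI, x, (min_le_left _ _).trans hx1, hx2, lt_of_le_of_lt (min_le_left _ _) hc⟩))
    · by_contra hc
      exact ht2 (Or.inr (Or.inl (hull_sub (s2 T) ⟨htI, hc⟩)))
    · by_contra hc
      push Not at hc
      exact ht2 (Or.inr (Or.inr (hull_sub (s3 T) ⟨htI, hc⟩)))
  · filter_upwards [hm, h3, eventually_ge_atTop Ta, eventually_ge_atTop Tb, eventually_ge_atTop 16] with T hm h3 hTa hTb hT i N hN b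
    have hT1 : 1 ≤ T := by linarith
    have hTT : T ≤ 2 * T := by linarith
    have l1 : (N : ℝ) ≤ T ^ θ₁ := hN.trans (Real.rpow_le_rpow_of_exponent_le hT1 ((min_le_left _ _).trans (min_le_left _ _)))
    have l2 : (N : ℝ) ≤ T ^ (1 / 4 : ℝ) := hN.trans (Real.rpow_le_rpow_of_exponent_le hT1 ((min_le_left _ _).trans (min_le_right _ _)))
    have l3 : (N : ℝ) ≤ T ^ θa := hN.trans (Real.rpow_le_rpow_of_exponent_le hT1 ((min_le_right _ _).trans (min_le_left _ _)))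
    have l4 : (N : ℝ) ≤ T ^ θb := hN.trans (Real.rpow_le_rpow_of_exponent_le hT1
      ((min_le_right _ _).trans ((min_le_right _ _).trans (min_le_left _ _))))
    have l5 : (N : ℝ) ≤ T ^ θc := hN.trans (Real.rpow_le_rpow_of_exponent_le hT1
      ((min_le_right _ _).trans ((min_le_right _ _).trans (min_le_right _ _))))
    have m0 := hm i N l1 b
    have m1 := h1 T hTa N l3 b
    have m2 := (h2 T hTb).1 N l4 b
    have m3 := h3 N l5 b
    have mv := (Pool.Agent.Q84.UM.t_MVL T hT N l2 b).2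
    set f : ℝ → ℝ := fun t => ‖dp N b t‖ ^ 2 with hf
    have hf0 : ∀ t, 0 ≤ f t := fun t => by simp only [hf]; positivity
    have hc : Continuous f := (Pool.Agent.Q84.UM.t_DPM.2.2 N b 0).2.norm.pow 2
    have hi : IntegrableOn f (Set.Icc T (2 * T)) := hc.integrableOn_Icc
    rw [intervalIntegral.integral_of_le hTT, ← integral_Icc_eq_integral_Ioc] at mv
    have hn : 0 ≤ T * N2 N b := mul_nonneg (by linarith) (Pool.Agent.Q98.UM.N2_nonneg _ _)
    have hM0 : 0 ≤ ∫ t in Set.Icc T (2 * T), f t := integral_nonneg hf0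
    have u1 : ∫ t in hull T (A1 T), f t ≤ c₀ / 6 * (T * N2 N b) := by
      refine (hull_int (s1 T) hf0 hc).trans (m1.trans ?_)
      calc ε₁ * ∫ t in Set.Icc T (2 * T), f t ≤ c₀ / 12 * (2 * T * N2 N b) :=
            mul_le_mul (min_le_right _ _) mv hM0 (by positivity)
        _ = _ := by ring
    have u2 : ∫ t in hull T (A2 T), f t ≤ c₀ / 6 * (T * N2 N b) := by
      refine (hull_int (s2 T) hf0 hc).trans (m2.trans ?_)
      calc c₀ / 12 * ∫ t in Set.Icc T (2 * T), f t ≤ c₀ / 12 * (2 * T * N2 N b) :=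
            mul_le_mul_of_nonneg_left mv (by positivity)
        _ = _ := by ring
    have u3 : ∫ t in hull T (bad3 K H T), f t ≤ c₀ / 6 * (T * N2 N b) := (hull_int (s3 T) hf0 hc).trans m3
    have uU : ∫ t in U T, f t ≤ c₀ / 2 * (T * N2 N b) := by
      have e1 := int_union_le hf0 hi (hull_meas T (A1 T)) ((hull_meas T (A2 T)).union (hull_meas T (bad3 K H T))) (hhI _ _)
        (Set.union_subset (hhI _ _) (hhI _ _))
      have e2 := int_union_le hf0 hi (hull_meas T (A2 T)) (hull_meas T (bad3 K H T)) (hhI _ _) (hhI _ _)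
      have e3 : ∫ t in U T, f t = ∫ t in hull T (A1 T) ∪ (hull T (A2 T) ∪ hull T (bad3 K H T)), f t := rfl
      linarith
    have hUI : U T ⊆ Set.Icc T (2 * T) := Set.union_subset (hhI _ _) (Set.union_subset (hhI _ _) (hhI _ _))
    have hsplit : (∫ t in SS d i.1 T ∩ U T, f t) + ∫ t in SS d i.1 T \ U T, f t = ∫ t in SS d i.1 T, f t :=
      integral_inter_add_sdiff (hUm T) (hi.mono_set (SS_sub d i.1 T))
    have hle : ∫ t in SS d i.1 T ∩ U T, f t ≤ ∫ t in U T, f t :=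
      setIntegral_mono_set (hi.mono_set hUI) (Eventually.of_forall hf0) (Eventually.of_forall Set.inter_subset_right)
    have hfin : c₀ * (T * N2 N b) - c₀ / 2 * (T * N2 N b) ≤ ∫ t in SS d i.1 T \ U T, f t := by linarith
    refine le_trans (le_of_eq ?_) hfin
    ring

end

end Pool.Agent.U196.SH
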