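import Pool.Agent.U196.SH.LowK
import Pool.Agent.U196.UM.Mass4

/-!
# Project SH (helper196): all moments, extreme values and large deviations on the points of each sign
-/

set_option autoImplicit false

namespace Pool.Agent.U196.SH

open Filter Topology MeasureTheory Complex
open Pool.Agent.Q97.UM

noncomputable section

/-- the two signs -/
abbrev Sg : Type := {σ : ℝ // σ = 1 ∨ σ = -1}

/-- the mass hypothesis -/
def HM (d θ c : ℝ) : Prop := ∀ᶠ T : ℝ in atTop, ∀ i : Sg, ∀ N : ℕ, (N : ℝ) ≤ T ^ θ → ∀ b : ℕ → ℂ,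
  c * (T * N2 N b) ≤ ∫ t in SS d i.1 T, ‖dp N b t‖ ^ 2

theorem mass' : ∃ d θ c : ℝ, 0 < d ∧ 0 < θ ∧ θ ≤ 1 / 40 ∧ 0 < c ∧ HM d θ c := by
  obtain ⟨d, θ, c, hd, hθ, hθ', hc, h⟩ := mass
  exact ⟨d, θ, c, hd, hθ, hθ', hc, h.mono fun T hT i N hN b => hT i.1 i.2 N hN b⟩

/-- **Lower bound for all real orders** on the points of each sign, relative to every Dirichlet polynomial. -/
theorem lowerS {d θ₁ c₀ : ℝ} (hθ₁ : 0 < θ₁) (hc₀ : 0 < c₀) (hm : HM d θ₁ c₀) {A : ℝ} (hA : 1 ≤ A) :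
    ∃ θ c : ℝ, 0 < θ ∧ 0 < c ∧ ∀ᶠ T : ℝ in atTop, ∀ (n : ℕ) (k α : Fin n → ℝ),
    ∑ j, |k j| ≤ A → (∀ j, |α j| ≤ T / 2) → ∃ (M : ℕ) (e : ℕ → ℂ), (M : ℝ) ≤ T ^ (1 / 8 : ℝ) ∧
      c * (T * UM.pred T k α) ≤ ∫ t in T..(2 * T), ‖dp M e t‖ ^ 2 ∧
      ∀ i : Sg, ∀ N : ℕ, (N : ℝ) ≤ T ^ θ → ∀ b : ℕ → ℂ,
        ENNReal.ofReal (c * ∫ t in T..(2 * T), ‖dp M e t * dp N b t‖ ^ 2) ≤
          ∫⁻ t in SS d i.1 T, ENNReal.ofReal ((∏ j, ‖zt (t + α j)‖ ^ (2 * k j)) * ‖dp N b t‖ ^ 2) := by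
  obtain ⟨δ, θ, c, hδ, hδ1, hθ, hc, h⟩ := lbm_sub hθ₁ hc₀ (fun i : Sg => SS d i.1) (fun i T => SS_meas d i.1 T)
    (fun i T => SS_sub d i.1 T) hm A hA
  obtain ⟨C, hC⟩ := UM.prime_sum_lower hδ (by linarith) (show (0:ℝ) ≤ A by linarith)
  refine ⟨min θ (1 / 8), min (c / 2) (c / 2 * Real.exp (-C)), by positivity, by positivity, ?_⟩
  filter_upwards [h, hC, eventually_ge_atTop 16] with T h1 h2 hT16 n k α hk hα
  obtain ⟨M, e, hM, he, hlow, h3⟩ := h1 n k α hk hα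
  have hT0 : 0 < T := by linarith
  have hM4 : (M : ℝ) ≤ T ^ (1 / 4 : ℝ) := hM.trans (Real.rpow_le_rpow_of_exponent_le (by linarith) (by norm_num))
  have hpred : 0 ≤ UM.pred T k α := Finset.prod_nonneg fun i _ => Finset.prod_nonneg fun j _ => by positivity
  refine ⟨M, e, hM, ?_, ?_⟩
  · have h4 := (Pool.Agent.Q84.UM.t_MVL T hT16 M hM4 e).1
    have h5 := h2 n k α hk
    calc min (c / 2) (c / 2 * Real.exp (-C)) * (T * UM.pred T k α) ≤ c / 2 * Real.exp (-C) * (T * UM.pred T k α) :=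
          mul_le_mul_of_nonneg_right (min_le_right _ _) (by positivity)
      _ = T / 2 * (c * (Real.exp (-C) * UM.pred T k α)) := by ring
      _ ≤ T / 2 * N2 M e := by
          refine mul_le_mul_of_nonneg_left ?_ (by linarith)
          exact (mul_le_mul_of_nonneg_left h5 hc.le).trans hlow
      _ ≤ _ := h4
  · intro i N hN b
    have hN1 : (N : ℝ) ≤ T ^ θ := hN.trans (Real.rpow_le_rpow_of_exponent_le (by linarith) (min_le_left _ _))
    have hN8 : (N : ℝ) ≤ T ^ (1 / 8 : ℝ) := hN.trans (Real.rpow_le_rpow_of_exponent_le (by linarith) (min_le_right _ _))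
    set b' : ℕ → ℂ := fun n => if 1 ≤ n ∧ n ≤ N then b n else 0 with hb'
    have hb's : ∀ m, b' m ≠ 0 → 1 ≤ m ∧ m ≤ N := by
      intro m hm
      by_contra hcon
      apply hm
      rw [hb']
      simp only
      rw [if_neg hcon]
    have hdp : ∀ t, dp N b' t = dp N b t := by
      intro t
      unfold dp
      refine Finset.sum_congr rfl fun m hm => ?_
      rw [hb']
      simp only
      rw [if_pos (Finset.mem_Icc.mp hm)]
    have h4 := h3 i N hN1 b' hb's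
    have h5 : ∀ t, dp M e t * dp N b t = dp (M * N) (cv e b') t := by
      intro t
      rw [← hdp t]
      exact Pool.Agent.Q84.UM.t_DPM.1 M N e b' t (Pool.Agent.Q98.UM.supp_zero he) (Pool.Agent.Q98.UM.supp_zero hb's)
    have hMN : ((M * N : ℕ) : ℝ) ≤ T ^ (1 / 4 : ℝ) := by
      push_cast
      calc (M : ℝ) * N ≤ T ^ (1 / 8 : ℝ) * T ^ (1 / 8 : ℝ) := mul_le_mul hM hN8 (by positivity) (by positivity)
        _ = T ^ (1 / 4 : ℝ) := by rw [← Real.rpow_add hT0]; norm_num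
    have h6 := (Pool.Agent.Q84.UM.t_MVL T hT16 (M * N) hMN (cv e b')).2
    simp_rw [h5]
    simp_rw [hdp] at h4
    refine le_trans (ENNReal.ofReal_le_ofReal ?_) h4
    have h7 : 0 ≤ ∫ t in T..(2 * T), ‖dp (M * N) (cv e b') t‖ ^ 2 :=
      intervalIntegral.integral_nonneg (by linarith) fun t _ => by positivity
    calc min (c / 2) (c / 2 * Real.exp (-C)) * ∫ t in T..(2 * T), ‖dp (M * N) (cv e b') t‖ ^ 2
        ≤ c / 2 * ∫ t in T..(2 * T), ‖dp (M * N) (cv e b') t‖ ^ 2 := mul_le_mul_of_nonneg_right (min_le_left _ _) h7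
      _ ≤ c / 2 * (2 * T * N2 (M * N) (cv e b')) := mul_le_mul_of_nonneg_left h6 (by positivity)
      _ = c * T * N2 (M * N) (cv e b') := by ring

/-- products of nonnegative powers of shifted values are continuous -/
lemma V_cont {n : ℕ} {k α : Fin n → ℝ} (hk : ∀ j, 0 ≤ k j) : Continuous fun t => ∏ j, ‖zt (t + α j)‖ ^ (2 * k j) := by
  refine continuous_finsetProd _ fun j _ => ?_
  refine Continuous.rpow_const ?_ fun t => Or.inr (by have := hk j; linarith)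
  exact (UM.continuous_zt.comp (continuous_id.add continuous_const)).norm

/-- **Each sign carries a positive share of every weighted moment of order at most two.** -/
theorem shareS {d θ₁ c₀ : ℝ} (hθ₁ : 0 < θ₁) (hc₀ : 0 < c₀) (hm : HM d θ₁ c₀) (n : ℕ) :
    ∃ θ c C : ℝ, 0 < θ ∧ 0 < c ∧ 0 < C ∧ ∀ᶠ T : ℝ in atTop, ∀ k α : Fin n → ℝ,
    (∀ j, 0 ≤ k j) → ∑ j, k j ≤ 1 → (∀ j, |α j| ≤ T / 2) →
      (∫ t in T..(2 * T), ∏ j, ‖zt (t + α j)‖ ^ (2 * k j)) ≤ C * (T * UM.pred T k α) ∧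
      ∀ i : Sg, ∀ N : ℕ, (N : ℝ) ≤ T ^ θ → ∀ b : ℕ → ℂ,
        c * (∫ t in T..(2 * T), (∏ j, ‖zt (t + α j)‖ ^ (2 * k j)) * ‖dp N b t‖ ^ 2) ≤
          ∫ t in SS d i.1 T, (∏ j, ‖zt (t + α j)‖ ^ (2 * k j)) * ‖dp N b t‖ ^ 2 := by
  obtain ⟨θ, c, C, hθ, hc, hC, h⟩ := exact_sub hθ₁ hc₀ (fun i : Sg => SS d i.1) (fun i T => SS_sub d i.1 T) hm n
  refine ⟨θ, c / C, C * C, hθ, by positivity, by positivity, ?_⟩
  filter_upwards [h, eventually_ge_atTop 16] with T h1 hT16 k α hk0 hk1 hα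
  obtain ⟨M, e, hM, e1, e2, h2⟩ := h1 k α hk0 hk1 hα
  constructor
  · have h3 := (h2 1 (by rw [Nat.cast_one]; exact Real.one_le_rpow (by linarith) hθ.le) d1).2
    simp only [dp_d1, norm_one, one_pow, mul_one] at h3
    calc (∫ t in T..(2 * T), ∏ j, ‖zt (t + α j)‖ ^ (2 * k j)) ≤ C * ∫ t in T..(2 * T), ‖dp M e t‖ ^ 2 := h3
      _ ≤ C * (C * (T * UM.pred T k α)) := mul_le_mul_of_nonneg_left e2 hC.le
      _ = _ := by ring
  · intro i N hN b
    obtain ⟨h3, h4⟩ := h2 N hN b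
    have h5 := h3 i
    have hcont : Continuous fun t => (∏ j, ‖zt (t + α j)‖ ^ (2 * k j)) * ‖dp N b t‖ ^ 2 :=
      (V_cont hk0).mul ((Pool.Agent.Q84.UM.t_DPM.2.2 N b 0).2.norm.pow 2)
    have hnn : ∀ t, 0 ≤ (∏ j, ‖zt (t + α j)‖ ^ (2 * k j)) * ‖dp N b t‖ ^ 2 := fun t => by positivity
    have hint : IntegrableOn (fun t => (∏ j, ‖zt (t + α j)‖ ^ (2 * k j)) * ‖dp N b t‖ ^ 2) (SS d i.1 T) :=
      (hcont.integrableOn_Icc).mono_set (SS_sub d i.1 T)
    rw [← ofReal_integral_eq_lintegral_ofReal hint (Eventually.of_forall hnn),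
      ENNReal.ofReal_le_ofReal_iff (integral_nonneg hnn)] at h5
    calc c / C * (∫ t in T..(2 * T), (∏ j, ‖zt (t + α j)‖ ^ (2 * k j)) * ‖dp N b t‖ ^ 2)
        ≤ c / C * (C * ∫ t in T..(2 * T), ‖dp M e t * dp N b t‖ ^ 2) := mul_le_mul_of_nonneg_left h4 (by positivity)
      _ = c * ∫ t in T..(2 * T), ‖dp M e t * dp N b t‖ ^ 2 := by field_simp
      _ ≤ _ := h5

/-- zeta to the right of its pole -/
lemma zeta_near : ∀ᶠ T : ℝ in atTop, Real.log T / 2 ≤ ‖riemannZeta (1 + 1 / Real.log T)‖ ∧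
    ‖riemannZeta (1 + 1 / Real.log T)‖ ≤ 2 * Real.log T := by
  have h0 : Tendsto (fun T : ℝ => (Real.log T)⁻¹) atTop (𝓝 0) := tendsto_inv_atTop_zero.comp Real.tendsto_log_atTop
  have h1 : Tendsto (fun T : ℝ => (1 + 1 / (Real.log T : ℂ))) atTop (𝓝[≠] 1) := by
    rw [tendsto_nhdsWithin_iff]
    constructor
    · have h2 : Tendsto (fun T : ℝ => (((Real.log T)⁻¹ : ℝ) : ℂ)) atTop (𝓝 ((0 : ℝ) : ℂ)) :=
        (Complex.continuous_ofReal.tendsto 0).comp h0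
      have h3 := h2.const_add (1 : ℂ)
      simp only [Complex.ofReal_zero, add_zero] at h3
      refine h3.congr fun T => ?_
      push_cast
      rw [one_div]
    · filter_upwards [eventually_gt_atTop 1] with T hT hc
      have hL : Real.log T ≠ 0 := (Real.log_pos hT).ne'
      have h4 : (1 / (Real.log T : ℂ)) = 0 := by
        have h5 : (1 : ℂ) + 1 / (Real.log T : ℂ) = 1 := hc
        linear_combination h5
      have h6 : (Real.log T : ℂ) ≠ 0 := by exact_mod_cast hL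
      exact one_div_ne_zero h6 h4
  have h2 := (riemannZeta_residue_one.comp h1).norm
  rw [norm_one] at h2
  filter_upwards [h2.eventually (lt_mem_nhds (show (1 / 2 : ℝ) < 1 by norm_num)),
    h2.eventually (gt_mem_nhds (show (1 : ℝ) < 2 by norm_num)), eventually_gt_atTop 1] with T a1 a2 hT
  have hL : 0 < Real.log T := Real.log_pos hT
  simp only [Function.comp_apply, add_sub_cancel_left, norm_mul, norm_div, norm_one, Complex.norm_real, Real.norm_eq_abs,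
    abs_of_pos hL] at a1 a2
  rw [div_mul_eq_mul_div, one_mul] at a1 a2
  rw [lt_div_iff₀ hL] at a1
  rw [div_lt_iff₀ hL] at a2
  constructor <;> linarith

lemma pred_one (T k : ℝ) : UM.pred T (fun _ : Fin 1 => k) (fun _ => 0) = ‖riemannZeta (1 + 1 / Real.log T)‖ ^ (k ^ 2) := by
  unfold UM.pred
  simp only [Finset.univ_unique, Finset.prod_singleton, sub_self, Complex.ofReal_zero, zero_mul, add_zero]
  rw [sq]

/-- `pred` and the power of the logarithm -/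
lemma pred_cmp (A : ℝ) : ∃ C : ℝ, 1 ≤ C ∧ ∀ᶠ T : ℝ in atTop, ∀ k : ℝ, |k| ≤ A →
    Real.log T ^ (k ^ 2) ≤ C * UM.pred T (fun _ : Fin 1 => k) (fun _ => 0) ∧
    UM.pred T (fun _ : Fin 1 => k) (fun _ => 0) ≤ C * Real.log T ^ (k ^ 2) := by
  refine ⟨2 ^ (A ^ 2), Real.one_le_rpow (by norm_num) (by positivity), ?_⟩
  filter_upwards [zeta_near, eventually_gt_atTop 1] with T hz hT k hk
  have hL : 0 < Real.log T := Real.log_pos hT
  have hk2 : k ^ 2 ≤ A ^ 2 := sq_le_sq' (by linarith [(abs_le.1 hk).1]) (abs_le.1 hk).2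
  have h2 : (2 : ℝ) ^ (k ^ 2) ≤ 2 ^ (A ^ 2) := Real.rpow_le_rpow_of_exponent_le (by norm_num) hk2
  rw [pred_one]
  have hz0 : 0 ≤ ‖riemannZeta (1 + 1 / Real.log T)‖ := norm_nonneg _
  constructor
  · calc Real.log T ^ (k ^ 2) ≤ (2 * ‖riemannZeta (1 + 1 / Real.log T)‖) ^ (k ^ 2) :=
          Real.rpow_le_rpow hL.le (by linarith [hz.1]) (by positivity)
      _ = 2 ^ (k ^ 2) * ‖riemannZeta (1 + 1 / Real.log T)‖ ^ (k ^ 2) := Real.mul_rpow (by norm_num) hz0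
      _ ≤ _ := mul_le_mul_of_nonneg_right h2 (by positivity)
  · calc ‖riemannZeta (1 + 1 / Real.log T)‖ ^ (k ^ 2) ≤ (2 * Real.log T) ^ (k ^ 2) :=
          Real.rpow_le_rpow hz0 hz.2 (by positivity)
      _ = 2 ^ (k ^ 2) * Real.log T ^ (k ^ 2) := Real.mul_rpow (by norm_num) hL.le
      _ ≤ _ := mul_le_mul_of_nonneg_right h2 (by positivity)

/-- on the points at positive distance from the zeros all powers are integrable -/
lemma pow_int {d T : ℝ} (hd : 0 < d) (hT : 1 < T) (σ k : ℝ) : IntegrableOn (fun t => ‖zt t‖ ^ (2 * k)) (SS d σ T) := by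
  set K : Set ℝ := {t : ℝ | t ∈ Set.Icc T (2 * T) ∧ ∀ s : ℂ, s ∈ {s : ℂ | riemannZeta s = 0 ∧ 0 < s.re ∧ s.re < 1} →
    d / Real.log T ≤ ‖s - (1 / 2 + I * t)‖} with hK
  have hKe : K = Set.Icc T (2 * T) ∩ ⋂ s ∈ {s : ℂ | riemannZeta s = 0 ∧ 0 < s.re ∧ s.re < 1},
      {t : ℝ | d / Real.log T ≤ ‖s - (1 / 2 + I * t)‖} := by
    ext t
    simp only [hK, Set.mem_ofPred_eq, Set.mem_inter_iff, Set.mem_iInter]
  have hcomp : IsCompact K := by
    rw [hKe]
    refine isCompact_Icc.inter_right (isClosed_biInter fun s _ => isClosed_le continuous_const ?_)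
    fun_prop
  have hcont : ContinuousOn (fun t => ‖zt t‖ ^ (2 * k)) K := by
    refine ContinuousOn.rpow_const UM.continuous_zt.norm.continuousOn fun t ht => Or.inl ?_
    intro h0
    rw [norm_eq_zero] at h0
    have hz : riemannZeta (1 / 2 + I * t) = 0 := by
      have : zt t = riemannZeta (1 / 2 + t * I) := rfl
      rw [this] at h0
      rw [mul_comm I]
      exact h0
    have h1 := ht.2 (1 / 2 + I * t) ⟨hz, by rw [SN.half_re]; norm_num, by rw [SN.half_re]; norm_num⟩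
    rw [sub_self, norm_zero] at h1
    have : 0 < d / Real.log T := div_pos hd (Real.log_pos hT)
    linarith
  exact (hcont.integrableOn_compact hcomp).mono_set fun t ht => ⟨⟨ht.1, ht.2.1⟩, fun s hs => ht.2.2.2 s hs.1 hs.2.1 hs.2.2⟩

/-- **all moments on the points of each sign, away from the zeros** -/
theorem momentsS {d θ₁ c₀ : ℝ} (hd : 0 < d) (hθ₁ : 0 < θ₁) (hc₀ : 0 < c₀) (hm : HM d θ₁ c₀) {A : ℝ} (hA : 1 ≤ A) :
    ∃ c : ℝ, 0 < c ∧ ∀ᶠ T : ℝ in atTop, ∀ k : ℝ, |k| ≤ A → ∀ i : Sg,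
      c * (T * Real.log T ^ (k ^ 2)) ≤ ∫ t in SS d i.1 T, ‖zt t‖ ^ (2 * k) := by
  obtain ⟨θ, c, hθ, hc, h⟩ := lowerS hθ₁ hc₀ hm hA
  obtain ⟨C, hC, hp⟩ := pred_cmp A
  refine ⟨c * c / C, by positivity, ?_⟩
  filter_upwards [h, hp, eventually_ge_atTop 16] with T h1 hp hT k hk i
  have hL : 0 < Real.log T := Real.log_pos (by linarith)
  obtain ⟨M, e, hM, e1, h2⟩ := h1 1 (fun _ => k) (fun _ => 0) (by simpa using hk) (fun _ => by rw [abs_zero]; linarith)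
  have h3 := h2 i 1 (by rw [Nat.cast_one]; exact Real.one_le_rpow (by linarith) hθ.le) d1
  simp only [dp_d1, norm_one, one_pow, mul_one, Finset.univ_unique, Finset.prod_singleton, add_zero] at h3
  have hnn : ∀ t, 0 ≤ ‖zt t‖ ^ (2 * k) := fun t => by positivity
  rw [← ofReal_integral_eq_lintegral_ofReal (pow_int hd (by linarith) i.1 k) (Eventually.of_forall hnn),
    ENNReal.ofReal_le_ofReal_iff (integral_nonneg hnn)] at h3
  obtain ⟨p1, -⟩ := hp k hk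
  calc c * c / C * (T * Real.log T ^ (k ^ 2)) ≤ c * c / C * (T * (C * UM.pred T (fun _ : Fin 1 => k) (fun _ => 0))) := by
        refine mul_le_mul_of_nonneg_left (mul_le_mul_of_nonneg_left p1 (by linarith)) (by positivity)
    _ = c * (c * (T * UM.pred T (fun _ : Fin 1 => k) (fun _ => 0))) := by field_simp
    _ ≤ c * ∫ t in T..(2 * T), ‖dp M e t‖ ^ 2 := mul_le_mul_of_nonneg_left e1 hc.le
    _ ≤ _ := h3

/-- the upper bound for the moments of order at most two -/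
theorem upperS {d θ₁ c₀ : ℝ} (hθ₁ : 0 < θ₁) (hc₀ : 0 < c₀) (hm : HM d θ₁ c₀) :
    ∃ C : ℝ, 0 < C ∧ ∀ᶠ T : ℝ in atTop, ∀ k : ℝ, 0 ≤ k → k ≤ 1 →
      ∫ t in T..(2 * T), ‖zt t‖ ^ (2 * k) ≤ C * (T * Real.log T ^ (k ^ 2)) := by
  obtain ⟨θ, c, C, hθ, hc, hC, h⟩ := shareS hθ₁ hc₀ hm 1
  obtain ⟨C', hC', hp⟩ := pred_cmp 1
  refine ⟨C * C', by positivity, ?_⟩
  filter_upwards [h, hp, eventually_ge_atTop 16] with T h1 hp hT k hk0 hk1
  obtain ⟨h2, -⟩ := h1 (fun _ => k) (fun _ => 0) (fun _ => hk0) (by simpa using hk1) (fun _ => by rw [abs_zero]; linarith)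
  simp only [Finset.univ_unique, Finset.prod_singleton, add_zero] at h2
  obtain ⟨-, p1⟩ := hp k (by rw [abs_of_nonneg hk0]; exact hk1)
  calc ∫ t in T..(2 * T), ‖zt t‖ ^ (2 * k) ≤ C * (T * UM.pred T (fun _ : Fin 1 => k) (fun _ => 0)) := h2
    _ ≤ C * (T * (C' * Real.log T ^ (k ^ 2))) := by
        refine mul_le_mul_of_nonneg_left (mul_le_mul_of_nonneg_left p1 (by linarith)) hC.le
    _ = _ := by ring

end

end Pool.Agent.U196.SH
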