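import Pool.Agent.U196.SH.Ext

/-!
# Project SH (helper196): sets which carry a positive share of the mass of every Dirichlet polynomial (visible sets) inside the
points of a given sign
-/

set_option autoImplicit false

namespace Pool.Agent.U196.SH

open Filter Topology MeasureTheory Complex
open Pool.Agent.Q97.UM

noncomputable section

/-- the mass hypothesis for a family of sets -/
def HV (S : Sg → ℝ → Set ℝ) (θ c : ℝ) : Prop := ∀ᶠ T : ℝ in atTop, ∀ i : Sg, ∀ N : ℕ, (N : ℝ) ≤ T ^ θ → ∀ b : ℕ → ℂ,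
  c * (T * N2 N b) ≤ ∫ t in S i T, ‖dp N b t‖ ^ 2

variable {S : Sg → ℝ → Set ℝ} {θ₁ c₀ : ℝ}

/-- **Lower bound for all real orders** -/
theorem lowerV (hθ₁ : 0 < θ₁) (hc₀ : 0 < c₀) (hSm : ∀ i T, MeasurableSet (S i T)) (hSs : ∀ i T, S i T ⊆ Set.Icc T (2 * T))
    (hm : HV S θ₁ c₀) {A : ℝ} (hA : 1 ≤ A) :
    ∃ θ c : ℝ, 0 < θ ∧ 0 < c ∧ ∀ᶠ T : ℝ in atTop, ∀ (n : ℕ) (k α : Fin n → ℝ),
    ∑ j, |k j| ≤ A → (∀ j, |α j| ≤ T / 2) → ∃ (M : ℕ) (e : ℕ → ℂ), (M : ℝ) ≤ T ^ (1 / 8 : ℝ) ∧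
      c * (T * UM.pred T k α) ≤ ∫ t in T..(2 * T), ‖dp M e t‖ ^ 2 ∧
      ∀ i : Sg, ∀ N : ℕ, (N : ℝ) ≤ T ^ θ → ∀ b : ℕ → ℂ,
        ENNReal.ofReal (c * ∫ t in T..(2 * T), ‖dp M e t * dp N b t‖ ^ 2) ≤
          ∫⁻ t in S i T, ENNReal.ofReal ((∏ j, ‖zt (t + α j)‖ ^ (2 * k j)) * ‖dp N b t‖ ^ 2) := by
  obtain ⟨δ, θ, c, hδ, hδ1, hθ, hc, h⟩ := lbm_sub hθ₁ hc₀ S hSm hSs hm A hA
  obtain ⟨C, hC⟩ := UM.prime_sum_lower hδ (by linarith) (show (0:ℝ) ≤ A by linarith)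
  refine ⟨min θ (1 / 8), min (c / 2) (c / 2 * Real.exp (-C)), by positivity, by positivity, ?_⟩
  filter_upwards [h, hC, eventually_ge_atTop 16] with T h1 h2 hT16 n k α hk hα
  obtain ⟨M, e, hM, he, hlow, h3⟩ := h1 n k α hk hα
  have hT0 : 0 < T := by linarith
  have hM4 : (M : ℝ) ≤ T ^ (1 / 4 : ℝ) := hM.trans (Real.rpow_le_rpow_of_exponent_le (by linarith) (by norm_num))
  have hpred : 0 ≤ UM.pred T k α := Finset.prod_nonneg fun i _ => Finset.prod_nonneg fun j _ => by positivity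
  refine ⟨M, e, hM, ?_, ?_⟩
  · have h4 := (Pool.Agent.Q84.UM.t_MVL T hT16 M hM4 e).1
    have h5 := h2 n k α hk
    calc min (c / 2) (c / 2 * Real.exp (-C)) * (T * UM.pred T k α) ≤ c / 2 * Real.exp (-C) * (T * UM.pred T k α) :=
          mul_le_mul_of_nonneg_right (min_le_right _ _) (by positivity)
      _ = T / 2 * (c * (Real.exp (-C) * UM.pred T k α)) := by ring
      _ ≤ T / 2 * N2 M e := by
          refine mul_le_mul_of_nonneg_left ?_ (by linarith)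
          exact (mul_le_mul_of_nonneg_left h5 hc.le).trans hlow
      _ ≤ _ := h4
  · intro i N hN b
    have hN1 : (N : ℝ) ≤ T ^ θ := hN.trans (Real.rpow_le_rpow_of_exponent_le (by linarith) (min_le_left _ _))
    have hN8 : (N : ℝ) ≤ T ^ (1 / 8 : ℝ) := hN.trans (Real.rpow_le_rpow_of_exponent_le (by linarith) (min_le_right _ _))
    set b' : ℕ → ℂ := fun n => if 1 ≤ n ∧ n ≤ N then b n else 0 with hb'
    have hb's : ∀ m, b' m ≠ 0 → 1 ≤ m ∧ m ≤ N := by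
      intro m hm
      by_contra hcon
      apply hm
      rw [hb']
      simp only
      rw [if_neg hcon]
    have hdp : ∀ t, dp N b' t = dp N b t := by
      intro t
      unfold dp
      refine Finset.sum_congr rfl fun m hm => ?_
      rw [hb']
      simp only
      rw [if_pos (Finset.mem_Icc.mp hm)]
    have h4 := h3 i N hN1 b' hb's
    have h5 : ∀ t, dp M e t * dp N b t = dp (M * N) (cv e b') t := by
      intro t
      rw [← hdp t]
      exact Pool.Agent.Q84.UM.t_DPM.1 M N e b' t (Pool.Agent.Q98.UM.supp_zero he) (Pool.Agent.Q98.UM.supp_zero hb's)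
    have hMN : ((M * N : ℕ) : ℝ) ≤ T ^ (1 / 4 : ℝ) := by
      push_cast
      calc (M : ℝ) * N ≤ T ^ (1 / 8 : ℝ) * T ^ (1 / 8 : ℝ) := mul_le_mul hM hN8 (by positivity) (by positivity)
        _ = T ^ (1 / 4 : ℝ) := by rw [← Real.rpow_add hT0]; norm_num
    have h6 := (Pool.Agent.Q84.UM.t_MVL T hT16 (M * N) hMN (cv e b')).2
    simp_rw [h5]
    simp_rw [hdp] at h4
    refine le_trans (ENNReal.ofReal_le_ofReal ?_) h4
    have h7 : 0 ≤ ∫ t in T..(2 * T), ‖dp (M * N) (cv e b') t‖ ^ 2 :=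
      intervalIntegral.integral_nonneg (by linarith) fun t _ => by positivity
    calc min (c / 2) (c / 2 * Real.exp (-C)) * ∫ t in T..(2 * T), ‖dp (M * N) (cv e b') t‖ ^ 2
        ≤ c / 2 * ∫ t in T..(2 * T), ‖dp (M * N) (cv e b') t‖ ^ 2 := mul_le_mul_of_nonneg_right (min_le_left _ _) h7
      _ ≤ c / 2 * (2 * T * N2 (M * N) (cv e b')) := mul_le_mul_of_nonneg_left h6 (by positivity)
      _ = c * T * N2 (M * N) (cv e b') := by ring

/-- **Each sign carries a positive share of every weighted moment of order at most two.** -/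
theorem shareV (hθ₁ : 0 < θ₁) (hc₀ : 0 < c₀) (hSs : ∀ i T, S i T ⊆ Set.Icc T (2 * T)) (hm : HV S θ₁ c₀) (n : ℕ) :
    ∃ θ c C : ℝ, 0 < θ ∧ 0 < c ∧ 0 < C ∧ ∀ᶠ T : ℝ in atTop, ∀ k α : Fin n → ℝ,
    (∀ j, 0 ≤ k j) → ∑ j, k j ≤ 1 → (∀ j, |α j| ≤ T / 2) →
      (∫ t in T..(2 * T), ∏ j, ‖zt (t + α j)‖ ^ (2 * k j)) ≤ C * (T * UM.pred T k α) ∧
      ∀ i : Sg, ∀ N : ℕ, (N : ℝ) ≤ T ^ θ → ∀ b : ℕ → ℂ,
        c * (∫ t in T..(2 * T), (∏ j, ‖zt (t + α j)‖ ^ (2 * k j)) * ‖dp N b t‖ ^ 2) ≤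
          ∫ t in S i T, (∏ j, ‖zt (t + α j)‖ ^ (2 * k j)) * ‖dp N b t‖ ^ 2 := by
  obtain ⟨θ, c, C, hθ, hc, hC, h⟩ := exact_sub hθ₁ hc₀ S hSs hm n
  refine ⟨θ, c / C, C * C, hθ, by positivity, by positivity, ?_⟩
  filter_upwards [h, eventually_ge_atTop 16] with T h1 hT16 k α hk0 hk1 hα
  obtain ⟨M, e, hM, e1, e2, h2⟩ := h1 k α hk0 hk1 hα
  constructor
  · have h3 := (h2 1 (by rw [Nat.cast_one]; exact Real.one_le_rpow (by linarith) hθ.le) d1).2
    simp only [dp_d1, norm_one, one_pow, mul_one] at h3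
    calc (∫ t in T..(2 * T), ∏ j, ‖zt (t + α j)‖ ^ (2 * k j)) ≤ C * ∫ t in T..(2 * T), ‖dp M e t‖ ^ 2 := h3
      _ ≤ C * (C * (T * UM.pred T k α)) := mul_le_mul_of_nonneg_left e2 hC.le
      _ = _ := by ring
  · intro i N hN b
    obtain ⟨h3, h4⟩ := h2 N hN b
    have h5 := h3 i
    have hcont : Continuous fun t => (∏ j, ‖zt (t + α j)‖ ^ (2 * k j)) * ‖dp N b t‖ ^ 2 :=
      (V_cont hk0).mul ((Pool.Agent.Q84.UM.t_DPM.2.2 N b 0).2.norm.pow 2)
    have hnn : ∀ t, 0 ≤ (∏ j, ‖zt (t + α j)‖ ^ (2 * k j)) * ‖dp N b t‖ ^ 2 := fun t => by positivity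
    have hint : IntegrableOn (fun t => (∏ j, ‖zt (t + α j)‖ ^ (2 * k j)) * ‖dp N b t‖ ^ 2) (S i T) :=
      (hcont.integrableOn_Icc).mono_set (hSs i T)
    rw [← ofReal_integral_eq_lintegral_ofReal hint (Eventually.of_forall hnn),
      ENNReal.ofReal_le_ofReal_iff (integral_nonneg hnn)] at h5
    calc c / C * (∫ t in T..(2 * T), (∏ j, ‖zt (t + α j)‖ ^ (2 * k j)) * ‖dp N b t‖ ^ 2)
        ≤ c / C * (C * ∫ t in T..(2 * T), ‖dp M e t * dp N b t‖ ^ 2) := mul_le_mul_of_nonneg_left h4 (by positivity)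
      _ = c * ∫ t in T..(2 * T), ‖dp M e t * dp N b t‖ ^ 2 := by field_simp
      _ ≤ _ := h5

/-- **all moments on the points of each sign, away from the zeros** -/
theorem momentsV {d : ℝ} (hd : 0 < d) (hθ₁ : 0 < θ₁) (hc₀ : 0 < c₀) (hSm : ∀ i T, MeasurableSet (S i T)) (hSS : ∀ i T, S i T ⊆ SS d i.1 T)
    (hm : HV S θ₁ c₀) {A : ℝ} (hA : 1 ≤ A) :
    ∃ c : ℝ, 0 < c ∧ ∀ᶠ T : ℝ in atTop, ∀ k : ℝ, |k| ≤ A → ∀ i : Sg,
      c * (T * Real.log T ^ (k ^ 2)) ≤ ∫ t in S i T, ‖zt t‖ ^ (2 * k) := by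
  obtain ⟨θ, c, hθ, hc, h⟩ := lowerV hθ₁ hc₀ hSm (fun i T => (hSS i T).trans (SS_sub d i.1 T)) hm hA
  obtain ⟨C, hC, hp⟩ := pred_cmp A
  refine ⟨c * c / C, by positivity, ?_⟩
  filter_upwards [h, hp, eventually_ge_atTop 16] with T h1 hp hT k hk i
  have hL : 0 < Real.log T := Real.log_pos (by linarith)
  obtain ⟨M, e, hM, e1, h2⟩ := h1 1 (fun _ => k) (fun _ => 0) (by simpa using hk) (fun _ => by rw [abs_zero]; linarith)
  have h3 := h2 i 1 (by rw [Nat.cast_one]; exact Real.one_le_rpow (by linarith) hθ.le) d1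
  simp only [dp_d1, norm_one, one_pow, mul_one, Finset.univ_unique, Finset.prod_singleton, add_zero] at h3
  have hnn : ∀ t, 0 ≤ ‖zt t‖ ^ (2 * k) := fun t => by positivity
  rw [← ofReal_integral_eq_lintegral_ofReal ((pow_int hd (by linarith) i.1 k).mono_set (hSS i T)) (Eventually.of_forall hnn),
    ENNReal.ofReal_le_ofReal_iff (integral_nonneg hnn)] at h3
  obtain ⟨p1, -⟩ := hp k hk
  calc c * c / C * (T * Real.log T ^ (k ^ 2)) ≤ c * c / C * (T * (C * UM.pred T (fun _ : Fin 1 => k) (fun _ => 0))) := by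
        refine mul_le_mul_of_nonneg_left (mul_le_mul_of_nonneg_left p1 (by linarith)) (by positivity)
    _ = c * (c * (T * UM.pred T (fun _ : Fin 1 => k) (fun _ => 0))) := by field_simp
    _ ≤ c * ∫ t in T..(2 * T), ‖dp M e t‖ ^ 2 := mul_le_mul_of_nonneg_left e1 hc.le
    _ ≤ _ := h3

/-- **extreme values on the points of each sign** -/
theorem extV (hθ₁ : 0 < θ₁) (hc₀ : 0 < c₀) (hSm : ∀ i T, MeasurableSet (S i T)) (hSs : ∀ i T, S i T ⊆ Set.Icc T (2 * T))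
    (hm : HV S θ₁ c₀) {ε : ℝ} (hε : 0 < ε) :
    ∃ c : ℝ, 0 < c ∧ ∀ᶠ T : ℝ in atTop, ∀ i : Sg, ∀ τ : ℝ, τ = 1 ∨ τ = -1 →
      ENNReal.ofReal (T ^ (1 - ε)) ≤ volume {t : ℝ | t ∈ S i T ∧ c * UM.sq T ≤ τ * Real.log ‖zt t‖} := by
  set θ : ℝ := min (min θ₁ (1 / 4)) (ε / 2) with hθ
  have hθ0 : 0 < θ := by positivity
  obtain ⟨c, C, hc, hC, h⟩ := UM.extremal hθ0
  refine ⟨c / 2, by positivity, ?_⟩
  have hgr : ∀ᶠ T : ℝ in atTop, 8 / c₀ ≤ T ^ (ε / 2) := (tendsto_rpow_atTop (by positivity)).eventually_ge_atTop _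
  filter_upwards [h, hm, growthE (16 * C / (c ^ 2 * c₀)), hgr, eventually_ge_atTop 16,
    (Real.tendsto_log_atTop.comp Real.tendsto_log_atTop).eventually_ge_atTop 1] with T h1 h2 h3 h4 hT hLL i τ hτ
  have hT0 : 0 < T := by linarith
  have hT1 : 1 ≤ T := by linarith
  have hTT : T ≤ 2 * T := by linarith
  have hL : 0 < Real.log T := Real.log_pos (by linarith)
  have hLL : 1 ≤ Real.log (Real.log T) := hLL
  obtain ⟨N, b, a, hN, hM0, ha, hI, hX⟩ := h1 τ hτ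
  set f : ℝ → ℝ := fun t => ‖dp N b t‖ ^ 2 with hf
  set M0 := ∫ t in T..(2 * T), ‖dp N b t‖ ^ 2 with hM0d
  have hN4 : (N : ℝ) ≤ T ^ (1 / 4 : ℝ) := hN.trans (Real.rpow_le_rpow_of_exponent_le hT1 ((min_le_left _ _).trans (min_le_right _ _)))
  have hNθ : (N : ℝ) ≤ T ^ θ₁ := hN.trans (Real.rpow_le_rpow_of_exponent_le hT1 ((min_le_left _ _).trans (min_le_left _ _)))
  have hNε : (N : ℝ) ≤ T ^ (ε / 2) := hN.trans (Real.rpow_le_rpow_of_exponent_le hT1 (min_le_right _ _))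
  have m2 := (Pool.Agent.Q84.UM.t_MVL T hT N hN4 b).2
  rw [← hM0d] at m2
  have hS := h2 i N hNθ b
  have hn : 0 < N2 N b := by
    by_contra hc
    push Not at hc
    nlinarith
  have hc' : Continuous f := (Pool.Agent.Q84.UM.t_DPM.2.2 N b 0).2.norm.pow 2
  set q := Real.log T / Real.log (Real.log T) with hq
  have hq0 : 0 < q := by positivity
  have hsq : UM.sq T ^ 2 = q := by
    have : UM.sq T = Real.sqrt q := rfl
    rw [this, Real.sq_sqrt hq0.le]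
  have hsq0 : 0 ≤ UM.sq T := Real.sqrt_nonneg _
  set E : Set ℝ := {t : ℝ | t ∈ S i T ∧ c / 2 * UM.sq T ≤ τ * Real.log ‖zt t‖} with hE
  have hEm : MeasurableSet E := by
    have hmz : Measurable fun t => τ * Real.log ‖zt t‖ := by
      have := zt_meas
      fun_prop
    exact (hSm i T).inter (measurableSet_le measurable_const hmz)
  have hES : E ⊆ S i T := fun t ht => ht.1
  have hEI : E ⊆ Set.Icc T (2 * T) := hES.trans (hSs i T)
  have hfS : IntegrableOn f (S i T) := (hc'.integrableOn_Icc).mono_set (hSs i T)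
  have hfE : IntegrableOn f E := hfS.mono_set hES
  -- the complement
  have hsplit : ∫ t in S i T, f t = (∫ t in E, f t) + ∫ t in S i T \ E, f t := by
    rw [← setIntegral_union Set.disjoint_sdiff_right ((hSm i T).diff hEm) hfE (hfS.mono_set Set.diff_subset),
      Set.union_diff_cancel hES]
  have hgi : IntegrableOn (fun t => (Real.log ‖zt t‖ - τ * a) ^ 2 * ‖dp N b t‖ ^ 2) (Set.Icc T (2 * T)) :=
    (intervalIntegrable_iff_integrableOn_Icc_of_le hTT).mp hI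
  have hcompl : ∫ t in S i T \ E, f t ≤ c₀ / 4 * M0 := by
    have hD : 0 < c ^ 2 * q / 4 := by positivity
    have k1 : ∫ t in S i T \ E, f t ≤ ∫ t in S i T \ E, (c ^ 2 * q / 4)⁻¹ * ((Real.log ‖zt t‖ - τ * a) ^ 2 * ‖dp N b t‖ ^ 2) := by
      refine setIntegral_mono_on (hfS.mono_set Set.diff_subset)
        ((hgi.mono_set (Set.diff_subset.trans (hSs i T))).const_mul _) ((hSm i T).diff hEm) fun t ht => ?_
      have h5 : τ * Real.log ‖zt t‖ < c / 2 * UM.sq T := by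
        by_contra hcon
        exact ht.2 ⟨ht.1, not_lt.1 hcon⟩
      have h6 : c * UM.sq T ≤ a := ha
      have h7 : c ^ 2 * q / 4 ≤ (Real.log ‖zt t‖ - τ * a) ^ 2 := by
        have e1 : (Real.log ‖zt t‖ - τ * a) ^ 2 = (a - τ * Real.log ‖zt t‖) ^ 2 := by
          rcases hτ with h | h <;> rw [h] <;> ring
        rw [e1, ← hsq]
        have h8 : c * UM.sq T / 2 ≤ a - τ * Real.log ‖zt t‖ := by linarith
        have h9 : 0 ≤ c * UM.sq T / 2 := by positivity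
        nlinarith
      have h10 : 1 ≤ (c ^ 2 * q / 4)⁻¹ * (Real.log ‖zt t‖ - τ * a) ^ 2 := by
        rw [← div_eq_inv_mul, le_div_iff₀ hD, one_mul]; exact h7
      have h11 : 0 ≤ ‖dp N b t‖ ^ 2 := by positivity
      calc f t = 1 * ‖dp N b t‖ ^ 2 := (one_mul _).symm
        _ ≤ ((c ^ 2 * q / 4)⁻¹ * (Real.log ‖zt t‖ - τ * a) ^ 2) * ‖dp N b t‖ ^ 2 := mul_le_mul_of_nonneg_right h10 h11
        _ = _ := by ring
    rw [integral_const_mul] at k1
    have k2 : ∫ t in S i T \ E, (Real.log ‖zt t‖ - τ * a) ^ 2 * ‖dp N b t‖ ^ 2 ≤ C * Real.log (Real.log T) ^ 2 * M0 := by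
      refine le_trans ?_ hX
      rw [intervalIntegral.integral_of_le hTT, ← integral_Icc_eq_integral_Ioc]
      exact setIntegral_mono_set hgi (Eventually.of_forall fun t => by simp only [Pi.zero_apply]; positivity)
        (Eventually.of_forall (Set.diff_subset.trans (hSs i T)))
    have k3 : (c ^ 2 * q / 4)⁻¹ * ∫ t in S i T \ E, (Real.log ‖zt t‖ - τ * a) ^ 2 * ‖dp N b t‖ ^ 2 ≤
        (c ^ 2 * q / 4)⁻¹ * (C * Real.log (Real.log T) ^ 2 * M0) := mul_le_mul_of_nonneg_left k2 (by positivity)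
    refine k1.trans (k3.trans ?_)
    rw [← div_eq_inv_mul, div_le_iff₀ hD]
    have k4 : 16 * C * Real.log (Real.log T) ^ 2 ≤ c ^ 2 * c₀ * q := by
      have := mul_le_mul_of_nonneg_left h3 (by positivity : 0 ≤ c ^ 2 * c₀)
      refine le_trans (le_of_eq ?_) this
      field_simp
    have k5 := mul_le_mul_of_nonneg_right k4 hM0.le
    nlinarith
  have hEf : c₀ / 8 * (T * N2 N b) ≤ ∫ t in E, f t := by
    have j1 : c₀ / 2 * M0 ≤ c₀ * (T * N2 N b) := by nlinarith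
    have j2 : c₀ * (T * N2 N b) ≤ (∫ t in E, f t) + c₀ / 4 * M0 := by
      calc c₀ * (T * N2 N b) ≤ ∫ t in S i T, f t := hS
        _ = (∫ t in E, f t) + ∫ t in S i T \ E, f t := hsplit
        _ ≤ _ := by linarith
    have j3 : c₀ / 4 * M0 ≤ c₀ / 2 * (T * N2 N b) := by nlinarith
    have j4 : 0 ≤ c₀ * (T * N2 N b) := by positivity
    linarith
  -- the measure
  have hvol : volume E ≠ ⊤ := ((measure_mono hEI).trans_lt (by rw [Real.volume_Icc]; exact ENNReal.ofReal_lt_top)).ne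
  have hup : ∫ t in E, f t ≤ (volume E).toReal * (N * N2 N b) := by
    have := setIntegral_mono_on hfE (g := fun _ => (N : ℝ) * N2 N b) (integrableOn_const hvol) hEm
      fun t _ => (Pool.Agent.Q84.UM.t_DPM.2.2 N b t).1
    refine this.trans (le_of_eq ?_)
    rw [setIntegral_const, smul_eq_mul]
    rfl
  have hfin : c₀ / 8 * T ≤ (volume E).toReal * N := by
    have : c₀ / 8 * T * N2 N b ≤ (volume E).toReal * N * N2 N b := by linarith
    exact le_of_mul_le_mul_right this hn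
  rw [ENNReal.ofReal_le_iff_le_toReal hvol]
  have hTε : 0 < T ^ (ε / 2) := Real.rpow_pos_of_pos hT0 _
  have h5 : c₀ / 8 * T ≤ (volume E).toReal * T ^ (ε / 2) := hfin.trans (mul_le_mul_of_nonneg_left hNε ENNReal.toReal_nonneg)
  have h6 : 1 ≤ c₀ / 8 * T ^ (ε / 2) := by
    rw [div_le_iff₀ hc₀] at h4
    linarith
  have h7 : T ^ (1 - ε) = T / (T ^ (ε / 2) * T ^ (ε / 2)) := by
    rw [← Real.rpow_add hT0, Real.rpow_sub hT0, Real.rpow_one]
    congr 2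
    ring
  rw [h7, div_le_iff₀ (by positivity)]
  calc T = 1 * T := (one_mul _).symm
    _ ≤ c₀ / 8 * T ^ (ε / 2) * T := mul_le_mul_of_nonneg_right h6 hT0.le
    _ = (c₀ / 8 * T) * T ^ (ε / 2) := by ring
    _ ≤ ((volume E).toReal * T ^ (ε / 2)) * T ^ (ε / 2) := mul_le_mul_of_nonneg_right h5 hTε.le
    _ = _ := by ring

/-- the upper bound for the moments of order at most two -/
theorem upperV : ∃ C : ℝ, 0 < C ∧ ∀ᶠ T : ℝ in atTop, ∀ k : ℝ, 0 ≤ k → k ≤ 1 →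
      ∫ t in T..(2 * T), ‖zt t‖ ^ (2 * k) ≤ C * (T * Real.log T ^ (k ^ 2)) := by
  obtain ⟨d, θ, c, hd, hθ, -, hc, h⟩ := mass'
  exact upperS hθ hc h

/-- **large deviations on the points of each sign** -/
theorem ldV {d : ℝ} (hd : 0 < d) (hθ₁ : 0 < θ₁) (hc₀ : 0 < c₀) (hSm : ∀ i T, MeasurableSet (S i T)) (hSS : ∀ i T, S i T ⊆ SS d i.1 T)
    (hm : HV S θ₁ c₀) {κ ε : ℝ} (hκ : 0 ≤ κ) (hκ1 : κ < 1) (hε : 0 < ε) : ∀ᶠ T : ℝ in atTop, ∀ i : Sg,
    ENNReal.ofReal (T * Real.log T ^ (-κ ^ 2 - ε)) ≤ volume {t : ℝ | t ∈ S i T ∧ Real.log T ^ κ ≤ ‖zt t‖} := by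
  obtain ⟨c, hc, hlow⟩ := momentsV hd hθ₁ hc₀ hSm hSS hm (le_refl (1 : ℝ))
  obtain ⟨C, hC, hup⟩ := upperV
  set δ : ℝ := min (ε / 14) ((1 - κ) / 2) with hδd
  have hδ : 0 < δ := by
    have : 0 < 1 - κ := by linarith
    positivity
  have hδε : δ ≤ ε / 14 := min_le_left _ _
  have hδκ : δ ≤ (1 - κ) / 2 := min_le_right _ _
  have hg1 : ∀ᶠ T : ℝ in atTop, 4 * C / c ≤ Real.log T ^ (δ ^ 2) :=
    Real.tendsto_log_atTop.eventually ((tendsto_rpow_atTop (by positivity)).eventually_ge_atTop _)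
  have hg2 : ∀ᶠ T : ℝ in atTop, 2 / c ≤ Real.log T ^ (ε / 2) :=
    Real.tendsto_log_atTop.eventually ((tendsto_rpow_atTop (by positivity)).eventually_ge_atTop _)
  filter_upwards [hlow, hup, hg1, hg2, eventually_ge_atTop 16] with T hlow hup hg1 hg2 hT i
  have hT0 : 0 < T := by linarith
  have hTT : T ≤ 2 * T := by linarith
  have hL1 : 1 ≤ Real.log T := by
    rw [Real.le_log_iff_exp_le hT0]
    have := Real.exp_one_lt_d9
    linarith
  set L := Real.log T with hLd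
  have hL : 0 < L := by linarith
  set k := κ + δ with hk
  have a1 := hlow k (by rw [abs_of_nonneg (by linarith)]; linarith) i
  have a2 := hup κ hκ hκ1.le
  have a3 := hup (κ + 2 * δ) (by linarith) (by linarith)
  set S := S i T with hS
  have hSI : S ⊆ Set.Icc T (2 * T) := (hSS i T).trans (SS_sub d i.1 T)
  set E : Set ℝ := {t : ℝ | t ∈ S ∧ L ^ κ ≤ ‖zt t‖} with hE
  have hEm : MeasurableSet E := (hSm i T).inter (measurableSet_le measurable_const zt_meas.norm)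
  have hES : E ⊆ S := fun t ht => ht.1
  have hvol : volume E ≠ ⊤ := ((measure_mono (hES.trans hSI)).trans_lt (by rw [Real.volume_Icc]; exact ENNReal.ofReal_lt_top)).ne
  have hcont : ∀ r : ℝ, 0 ≤ r → Continuous fun t => ‖zt t‖ ^ r := fun r hr => UM.continuous_zt.norm.rpow_const fun t => Or.inr hr
  have hi : ∀ r : ℝ, 0 ≤ r → IntegrableOn (fun t => ‖zt t‖ ^ r) S := fun r hr => ((hcont r hr).integrableOn_Icc).mono_set hSI
  have hmono : ∀ r : ℝ, 0 ≤ r → ∫ t in S, ‖zt t‖ ^ r ≤ ∫ t in T..(2 * T), ‖zt t‖ ^ r := by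
    intro r hr
    rw [intervalIntegral.integral_of_le hTT, ← integral_Icc_eq_integral_Ioc]
    exact setIntegral_mono_set ((hcont r hr).integrableOn_Icc) (Eventually.of_forall fun t => by simp only [Pi.zero_apply]; positivity)
      (Eventually.of_forall hSI)
  -- the pointwise inequality
  have hpt : ∀ t ∈ S, ‖zt t‖ ^ (2 * k) ≤ E.indicator (fun _ => L ^ (2 * k * (κ + 2 * δ))) t +
      (L ^ (2 * δ * κ) * ‖zt t‖ ^ (2 * κ) + L ^ (-(2 * δ * (κ + 2 * δ))) * ‖zt t‖ ^ (2 * (κ + 2 * δ))) := by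
    intro t ht
    have hz : 0 ≤ ‖zt t‖ := norm_nonneg _
    have q1 : 0 ≤ E.indicator (fun _ => L ^ (2 * k * (κ + 2 * δ))) t := Set.indicator_nonneg (fun _ _ => by positivity) t
    have q2 : 0 ≤ L ^ (2 * δ * κ) * ‖zt t‖ ^ (2 * κ) := by positivity
    have q3 : 0 ≤ L ^ (-(2 * δ * (κ + 2 * δ))) * ‖zt t‖ ^ (2 * (κ + 2 * δ)) := by positivity
    rcases lt_or_ge ‖zt t‖ (L ^ κ) with h | h
    · have h5 : ‖zt t‖ ^ (2 * k) ≤ L ^ (2 * δ * κ) * ‖zt t‖ ^ (2 * κ) := by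
        rcases eq_or_lt_of_le hz with h0 | h0
        · rw [← h0, Real.zero_rpow (by positivity)]
          positivity
        · have e1 : ‖zt t‖ ^ (2 * k) = ‖zt t‖ ^ (2 * δ) * ‖zt t‖ ^ (2 * κ) := by
            rw [← Real.rpow_add h0]; congr 1; rw [hk]; ring
          rw [e1]
          refine mul_le_mul_of_nonneg_right ?_ (by positivity)
          calc ‖zt t‖ ^ (2 * δ) ≤ (L ^ κ) ^ (2 * δ) := Real.rpow_le_rpow hz h.le (by positivity)
            _ = L ^ (2 * δ * κ) := by rw [← Real.rpow_mul hL.le]; congr 1; ring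
      linarith
    · have hEt : t ∈ E := ⟨ht, h⟩
      rcases le_or_gt ‖zt t‖ (L ^ (κ + 2 * δ)) with h' | h'
      · have h5 : ‖zt t‖ ^ (2 * k) ≤ L ^ (2 * k * (κ + 2 * δ)) := by
          calc ‖zt t‖ ^ (2 * k) ≤ (L ^ (κ + 2 * δ)) ^ (2 * k) := Real.rpow_le_rpow hz h' (by positivity)
            _ = _ := by rw [← Real.rpow_mul hL.le]; congr 1; ring
        rw [Set.indicator_of_mem hEt]
        linarith
      · have hz0 : 0 < ‖zt t‖ := lt_trans (by positivity) h'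
        have h5 : ‖zt t‖ ^ (2 * k) ≤ L ^ (-(2 * δ * (κ + 2 * δ))) * ‖zt t‖ ^ (2 * (κ + 2 * δ)) := by
          have e1 : ‖zt t‖ ^ (2 * (κ + 2 * δ)) = ‖zt t‖ ^ (2 * k) * ‖zt t‖ ^ (2 * δ) := by
            rw [← Real.rpow_add hz0]; congr 1; rw [hk]; ring
          have e2 : L ^ (2 * δ * (κ + 2 * δ)) ≤ ‖zt t‖ ^ (2 * δ) := by
            calc L ^ (2 * δ * (κ + 2 * δ)) = (L ^ (κ + 2 * δ)) ^ (2 * δ) := by rw [← Real.rpow_mul hL.le]; congr 1; ring
              _ ≤ _ := Real.rpow_le_rpow (by positivity) h'.le (by positivity)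
          have e3 : L ^ (-(2 * δ * (κ + 2 * δ))) * L ^ (2 * δ * (κ + 2 * δ)) = 1 := by
            rw [← Real.rpow_add hL]; simp
          rw [e1]
          calc ‖zt t‖ ^ (2 * k) = ‖zt t‖ ^ (2 * k) * (L ^ (-(2 * δ * (κ + 2 * δ))) * L ^ (2 * δ * (κ + 2 * δ))) := by
                rw [e3, mul_one]
            _ ≤ ‖zt t‖ ^ (2 * k) * (L ^ (-(2 * δ * (κ + 2 * δ))) * ‖zt t‖ ^ (2 * δ)) := by
                refine mul_le_mul_of_nonneg_left (mul_le_mul_of_nonneg_left e2 (by positivity)) (by positivity)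
            _ = _ := by ring
        linarith
  have hind : ∫ t in S, E.indicator (fun _ => L ^ (2 * k * (κ + 2 * δ))) t = (volume E).toReal * L ^ (2 * k * (κ + 2 * δ)) := by
    rw [setIntegral_indicator hEm, Set.inter_eq_self_of_subset_right hES, setIntegral_const, smul_eq_mul]
    rfl
  have hindi : IntegrableOn (E.indicator (fun _ => L ^ (2 * k * (κ + 2 * δ)))) S := by
    have : IntegrableOn (fun _ : ℝ => L ^ (2 * k * (κ + 2 * δ))) (Set.Icc T (2 * T)) := continuous_const.integrableOn_Icc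
    exact (this.mono_set hSI).indicator hEm
  have j1 : IntegrableOn (fun t => L ^ (2 * δ * κ) * ‖zt t‖ ^ (2 * κ)) S := (hi _ (by positivity)).const_mul _
  have j2 : IntegrableOn (fun t => L ^ (-(2 * δ * (κ + 2 * δ))) * ‖zt t‖ ^ (2 * (κ + 2 * δ))) S := (hi _ (by positivity)).const_mul _
  have hint : ∫ t in S, ‖zt t‖ ^ (2 * k) ≤ (volume E).toReal * L ^ (2 * k * (κ + 2 * δ)) +
      (L ^ (2 * δ * κ) * (∫ t in S, ‖zt t‖ ^ (2 * κ)) + L ^ (-(2 * δ * (κ + 2 * δ))) * ∫ t in S, ‖zt t‖ ^ (2 * (κ + 2 * δ))) := by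
    have h5 := setIntegral_mono_on (hi (2 * k) (by positivity)) (hindi.add (j1.add j2)) (hSm i T) hpt
    refine h5.trans (le_of_eq ?_)
    have e1 : ∫ t in S, (E.indicator (fun _ => L ^ (2 * k * (κ + 2 * δ))) t +
        (L ^ (2 * δ * κ) * ‖zt t‖ ^ (2 * κ) + L ^ (-(2 * δ * (κ + 2 * δ))) * ‖zt t‖ ^ (2 * (κ + 2 * δ)))) =
        (∫ t in S, E.indicator (fun _ => L ^ (2 * k * (κ + 2 * δ))) t) +
        ∫ t in S, (L ^ (2 * δ * κ) * ‖zt t‖ ^ (2 * κ) + L ^ (-(2 * δ * (κ + 2 * δ))) * ‖zt t‖ ^ (2 * (κ + 2 * δ))) :=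
      integral_add hindi (j1.add j2)
    have e2 : ∫ t in S, (L ^ (2 * δ * κ) * ‖zt t‖ ^ (2 * κ) + L ^ (-(2 * δ * (κ + 2 * δ))) * ‖zt t‖ ^ (2 * (κ + 2 * δ))) =
        (∫ t in S, L ^ (2 * δ * κ) * ‖zt t‖ ^ (2 * κ)) + ∫ t in S, L ^ (-(2 * δ * (κ + 2 * δ))) * ‖zt t‖ ^ (2 * (κ + 2 * δ)) :=
      integral_add j1 j2
    refine Eq.trans ?_ (e1.trans ?_)
    · rfl
    · rw [e2, hind, integral_const_mul, integral_const_mul]
  have b2 : L ^ (2 * δ * κ) * (∫ t in S, ‖zt t‖ ^ (2 * κ)) ≤ C * (T * L ^ (k ^ 2 - δ ^ 2)) := by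
    calc L ^ (2 * δ * κ) * (∫ t in S, ‖zt t‖ ^ (2 * κ)) ≤ L ^ (2 * δ * κ) * (C * (T * L ^ (κ ^ 2))) :=
          mul_le_mul_of_nonneg_left ((hmono _ (by positivity)).trans a2) (by positivity)
      _ = C * (T * (L ^ (2 * δ * κ) * L ^ (κ ^ 2))) := by ring
      _ = _ := by
          rw [← Real.rpow_add hL]
          congr 3
          rw [hk]; ring
  have b3 : L ^ (-(2 * δ * (κ + 2 * δ))) * (∫ t in S, ‖zt t‖ ^ (2 * (κ + 2 * δ))) ≤ C * (T * L ^ (k ^ 2 - δ ^ 2)) := by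
    calc L ^ (-(2 * δ * (κ + 2 * δ))) * (∫ t in S, ‖zt t‖ ^ (2 * (κ + 2 * δ)))
        ≤ L ^ (-(2 * δ * (κ + 2 * δ))) * (C * (T * L ^ ((κ + 2 * δ) ^ 2))) :=
          mul_le_mul_of_nonneg_left ((hmono _ (by positivity)).trans a3) (by positivity)
      _ = C * (T * (L ^ (-(2 * δ * (κ + 2 * δ))) * L ^ ((κ + 2 * δ) ^ 2))) := by ring
      _ = _ := by
          rw [← Real.rpow_add hL]
          congr 3
          rw [hk]; ring
  have hsum : c * (T * L ^ (k ^ 2)) ≤ (volume E).toReal * L ^ (2 * k * (κ + 2 * δ)) + 2 * (C * (T * L ^ (k ^ 2 - δ ^ 2))) := by linarith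
  have hsmall : 2 * (C * (T * L ^ (k ^ 2 - δ ^ 2))) ≤ c / 2 * (T * L ^ (k ^ 2)) := by
    have e1 : L ^ (k ^ 2) = L ^ (k ^ 2 - δ ^ 2) * L ^ (δ ^ 2) := by rw [← Real.rpow_add hL]; congr 1; ring
    have h5 : 4 * C ≤ c * L ^ (δ ^ 2) := by
      rw [div_le_iff₀ hc] at hg1; linarith
    have h6 : 0 ≤ T * L ^ (k ^ 2 - δ ^ 2) := by positivity
    rw [e1]
    have := mul_le_mul_of_nonneg_right h5 h6
    linarith
  have hmain : c / 2 * (T * L ^ (k ^ 2)) ≤ (volume E).toReal * L ^ (2 * k * (κ + 2 * δ)) := by linarith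
  rw [ENNReal.ofReal_le_iff_le_toReal hvol]
  have hP : 0 < L ^ (2 * k * (κ + 2 * δ)) := Real.rpow_pos_of_pos hL _
  refine le_of_mul_le_mul_right (le_trans ?_ hmain) hP
  have h5 : T * L ^ (-κ ^ 2 - ε) * L ^ (2 * k * (κ + 2 * δ)) ≤ T * L ^ (k ^ 2 - ε / 2) := by
    rw [mul_assoc, ← Real.rpow_add hL]
    refine mul_le_mul_of_nonneg_left (Real.rpow_le_rpow_of_exponent_le hL1 ?_) hT0.le
    rw [hk]
    have : δ ≤ 1 / 2 := by linarith
    nlinarith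
  refine h5.trans ?_
  have h6 : L ^ (k ^ 2) = L ^ (k ^ 2 - ε / 2) * L ^ (ε / 2) := by rw [← Real.rpow_add hL]; congr 1; ring
  rw [h6]
  have h7 : 1 ≤ c / 2 * L ^ (ε / 2) := by
    rw [div_le_iff₀ hc] at hg2; linarith
  have h8 : 0 ≤ T * L ^ (k ^ 2 - ε / 2) := by positivity
  calc T * L ^ (k ^ 2 - ε / 2) = 1 * (T * L ^ (k ^ 2 - ε / 2)) := (one_mul _).symm
    _ ≤ (c / 2 * L ^ (ε / 2)) * (T * L ^ (k ^ 2 - ε / 2)) := mul_le_mul_of_nonneg_right h7 h8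
    _ = _ := by ring

end

end Pool.Agent.U196.SH
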